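import Mathlib

/-!
# Polarized Hodge structures of any weight and Hodge forms
-/

set_option autoImplicit false
set_option linter.unusedSectionVars false

namespace Pool.Agent.U980.HL

open NormedSpace

/-- The value at the real vectors `v` of the `d`-linear form on `ℝ ^ n` with the rational
coefficients `t`. -/
noncomputable def value {n d : ℕ} (t : (Fin d → Fin n) → ℚ) (v : Fin d → Fin n → ℝ) : ℝ :=
  ∑ b, (t b : ℝ) * ∏ l, v l (b l)

/-- A Hodge structure on `ℚ ^ n` of some weight, polarized by the rational form with the matrix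
`Q`. It is given by `j`, the derivative at `0` of `θ ↦ h (e ^ (i θ))`, which is multiplication by
`i (p - q)` on `V ^ (p, q)`: the circle acts through `exp (θ j)`, preserves `Q`, and
`Q (x, C y)` is symmetric and positive definite, where `C = exp (π j / 2)` is the Weil operator. -/
structure Polarized {n : ℕ} (Q : Matrix (Fin n) (Fin n) ℚ) (j : Matrix (Fin n) (Fin n) ℝ) :
    Prop where
  period : exp ((2 * Real.pi) • j) = 1
  skew : j.transpose * Q.map (Rat.cast : ℚ → ℝ) + Q.map (Rat.cast : ℚ → ℝ) * j = 0
  pos : (Q.map (Rat.cast : ℚ → ℝ) * exp ((Real.pi / 2) • j)).PosDef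

/-- The form with the rational coefficients `t` is a Hodge form (Hodge tensor): it is fixed by the
circle. -/
def IsHodge {n d : ℕ} (j : Matrix (Fin n) (Fin n) ℝ) (t : (Fin d → Fin n) → ℚ) : Prop :=
  ∀ (θ : ℝ) (v : Fin d → Fin n → ℝ), value t (fun l => (exp (θ • j)).mulVec (v l)) = value t v

/-- The Mumford-Tate group is a torus (a CM-point): `j` is a real combination of commuting
rational matrices. -/
def IsCM {n : ℕ} (j : Matrix (Fin n) (Fin n) ℝ) : Prop :=
  ∃ R : Set (Matrix (Fin n) (Fin n) ℚ), (∀ x ∈ R, ∀ y ∈ R, x * y = y * x) ∧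
    j ∈ Submodule.span ℝ ((fun x : Matrix (Fin n) (Fin n) ℚ => x.map (Rat.cast : ℚ → ℝ)) '' R)

/-- Every Hodge form of `j`, of every degree, is a Hodge form of `j'`: the Mumford-Tate group of
`j'` is contained in that of `j`. -/
def Keeps {n : ℕ} (j j' : Matrix (Fin n) (Fin n) ℝ) : Prop :=
  ∀ (d : ℕ) (t : (Fin d → Fin n) → ℚ), IsHodge j t → IsHodge j' t

/-- `j` is isolated among the Hodge structures `j'` polarized by `Q` with the property `p`. -/
def Isolated {n : ℕ} (Q : Matrix (Fin n) (Fin n) ℚ) (j : Matrix (Fin n) (Fin n) ℝ)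
    (p : Matrix (Fin n) (Fin n) ℝ → Prop) : Prop :=
  ∃ U ∈ nhds j, ∀ j' ∈ U, Polarized Q j' → p j' → j' = j

/-- A continuous family of Hodge structures on `ℚ ^ n` polarized by `Q`, for instance the period
map, in flat coordinates, of a polarized variation of Hodge structure. -/
def IsFamily {n : ℕ} (Q : Matrix (Fin n) (Fin n) ℚ) {S : Type} [TopologicalSpace S]
    (φ : S → Matrix (Fin n) (Fin n) ℝ) : Prop :=
  Continuous φ ∧ ∀ s, Polarized Q (φ s)

end Pool.Agent.U980.HL
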