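import Mathlib
import Pool.Agent.U980.MF.Pos

/-!
# Forms of any degree with rational coefficients
-/

set_option autoImplicit false
set_option linter.unusedSectionVars false

namespace Pool.Agent.U980.HL

open Module Pool.Agent.R913.Adj Pool.Agent.U980.MF

/-- Multilinear forms of degree `d` on `V`. -/
abbrev Fm (k : Type) [Field k] (V : Type) [AddCommGroup V] [Module k V] (d : ℕ) : Type :=
  MultilinearMap k (fun _ : Fin d => V) k

section forms

variable {k : Type} [Field k] {V : Type} [AddCommGroup V] [Module k V]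

/-- `X` kills the form `φ`, as an element of the Lie algebra. -/
def Kil (X : End k V) {d : ℕ} (φ : Fm k V d) : Prop :=
  ∀ v, ∑ l, φ (Function.update v l (X (v l))) = 0

theorem Kil.add {X Y : End k V} {d : ℕ} {φ : Fm k V d} (hX : Kil X φ) (hY : Kil Y φ) :
    Kil (X + Y) φ := by
  intro v
  have h : ∀ l, φ (Function.update v l ((X + Y) (v l))) =
      φ (Function.update v l (X (v l))) + φ (Function.update v l (Y (v l))) := fun l => by
    rw [LinearMap.add_apply, φ.map_update_add]
  rw [Finset.sum_congr rfl fun l _ => h l, Finset.sum_add_distrib, hX v, hY v, add_zero]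

theorem Kil.smul {X : End k V} {d : ℕ} {φ : Fm k V d} (hX : Kil X φ) (c : k) :
    Kil (c • X) φ := by
  intro v
  have h : ∀ l, φ (Function.update v l ((c • X) (v l))) = c * φ (Function.update v l (X (v l))) :=
    fun l => by
    rw [LinearMap.smul_apply, φ.map_update_smul, smul_eq_mul]
  rw [Finset.sum_congr rfl fun l _ => h l, ← Finset.mul_sum, hX v, mul_zero]

theorem Kil.zero {d : ℕ} (φ : Fm k V d) : Kil (0 : End k V) φ := by
  intro v
  refine Finset.sum_eq_zero fun l _ => ?_
  rw [LinearMap.zero_apply]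
  exact φ.map_coord_zero l (Function.update_self _ _ _)

/-- The derivation by a bracket. -/
theorem Kil.bracket {X Y : End k V} {d : ℕ} {φ : Fm k V d} (hX : Kil X φ) (hY : Kil Y φ) :
    Kil (X * Y - Y * X) φ := by
  classical
  intro v
  have hd : ∀ (A B : End k V) (l : Fin d),
      ∑ l', φ (Function.update (Function.update v l (A (v l))) l'
        (B (Function.update v l (A (v l)) l'))) =
      φ (Function.update v l (B (A (v l)))) + ∑ l' ∈ Finset.univ.erase l,
        φ (Function.update (Function.update v l (A (v l))) l' (B (v l'))) := by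
    intro A B l
    rw [← Finset.add_sum_erase _ _ (Finset.mem_univ l), Function.update_self,
      Function.update_idem]
    congr 1
    refine Finset.sum_congr rfl fun l' hl' => ?_
    rw [Function.update_of_ne (Finset.ne_of_mem_erase hl')]
  have hXY : ∑ l, (φ (Function.update v l (X (Y (v l)))) + ∑ l' ∈ Finset.univ.erase l,
      φ (Function.update (Function.update v l (Y (v l))) l' (X (v l')))) = 0 := by
    refine Finset.sum_eq_zero fun l _ => ?_
    rw [← hd Y X l]
    exact hX _
  have hYX : ∑ l, (φ (Function.update v l (Y (X (v l)))) + ∑ l' ∈ Finset.univ.erase l,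
      φ (Function.update (Function.update v l (X (v l))) l' (Y (v l')))) = 0 := by
    refine Finset.sum_eq_zero fun l _ => ?_
    rw [← hd X Y l]
    exact hY _
  have hsw : ∑ l, ∑ l' ∈ Finset.univ.erase l,
      φ (Function.update (Function.update v l (Y (v l))) l' (X (v l'))) =
      ∑ l, ∑ l' ∈ Finset.univ.erase l,
      φ (Function.update (Function.update v l (X (v l))) l' (Y (v l'))) := by
    rw [Finset.sum_comm' (s' := fun l' => Finset.univ.erase l') (t' := Finset.univ) (by
      intro a b
      simp only [Finset.mem_univ, Finset.mem_erase, true_and, and_true]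
      exact ne_comm)]
    refine Finset.sum_congr rfl fun l _ => Finset.sum_congr rfl fun l' hl' => ?_
    rw [Function.update_comm (Finset.ne_of_mem_erase hl')]
  have h : ∀ l, φ (Function.update v l ((X * Y - Y * X) (v l))) =
      φ (Function.update v l (X (Y (v l)))) - φ (Function.update v l (Y (X (v l)))) := fun l => by
    rw [LinearMap.sub_apply, φ.map_update_sub]
    rfl
  rw [Finset.sum_congr rfl fun l _ => h l, Finset.sum_sub_distrib]
  rw [Finset.sum_add_distrib] at hXY hYX
  linear_combination hXY - hYX - hsw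

end forms

section coord

variable {K : Type} [Field K] {n d : ℕ}

/-- The form with the coefficients `t`. -/
noncomputable def fm (t : (Fin d → Fin n) → K) : Fm K (Fin n → K) d :=
  ∑ b, t b • (MultilinearMap.mkPiAlgebra K (Fin d) K).compLinearMap
    (fun l => LinearMap.proj (b l))

theorem fm_apply (t : (Fin d → Fin n) → K) (v : Fin d → Fin n → K) :
    fm t v = ∑ b, t b * ∏ l, v l (b l) := by
  unfold fm
  rw [_root_.sum_apply]
  refine Finset.sum_congr rfl fun b _ => ?_
  rw [_root_.smul_apply, MultilinearMap.compLinearMap_apply,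
    MultilinearMap.mkPiAlgebra_apply, smul_eq_mul]
  rfl

/-- The coefficients of a form. -/
def cf (φ : Fm K (Fin n → K) d) (b : Fin d → Fin n) : K :=
  φ (fun l => Pi.single (b l) 1)

theorem cf_fm (t : (Fin d → Fin n) → K) (b : Fin d → Fin n) : cf (fm t) b = t b := by
  unfold cf
  rw [fm_apply, Finset.sum_eq_single b]
  · rw [Finset.prod_eq_one, mul_one]
    intro l _
    rw [Pi.single_eq_same]
  · intro b' _ hb'
    obtain ⟨l, hl⟩ := Function.ne_iff.1 hb'
    rw [Finset.prod_eq_zero (Finset.mem_univ l), mul_zero]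
    rw [Pi.single_eq_of_ne hl]
  · intro h
    exact absurd (Finset.mem_univ b) h

theorem cf_fm' (t : (Fin d → Fin n) → K) : cf (fm t) = t := funext fun b => cf_fm t b

theorem fm_ext {φ ψ : Fm K (Fin n → K) d} (h : ∀ b, cf φ b = cf ψ b) : φ = ψ := by
  refine Basis.ext_multilinear (fun _ => Pi.basisFun K (Fin n)) fun b => ?_
  have h1 := h b
  simp only [Pi.basisFun_apply]
  exact h1

theorem fm_cf (φ : Fm K (Fin n → K) d) : fm (cf φ) = φ := fm_ext fun b => cf_fm _ b

/-- The derivation by `M` kills the form with the coefficients `t`. -/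
def Kd (M : Matrix (Fin n) (Fin n) K) (t : (Fin d → Fin n) → K) : Prop :=
  ∀ b : Fin d → Fin n, ∑ l, ∑ k, M k (b l) * t (Function.update b l k) = 0

theorem crd_sum (φ : Fm K (Fin n → K) d) (X : End K (Fin n → K)) (b : Fin d → Fin n) :
    ∑ l, φ (Function.update (fun l => Pi.single (b l) (1 : K)) l (X (Pi.single (b l) 1))) =
      ∑ l, ∑ k, LinearMap.toMatrix' X k (b l) * cf φ (Function.update b l k) := by
  refine Finset.sum_congr rfl fun l _ => ?_
  have h1 : X (Pi.single (b l) 1) =
      ∑ k, LinearMap.toMatrix' X k (b l) • (Pi.single k (1 : K) : Fin n → K) := by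
    funext k
    rw [Finset.sum_apply, Finset.sum_eq_single k]
    · rw [Pi.smul_apply, Pi.single_eq_same, smul_eq_mul, mul_one, LinearMap.toMatrix'_apply]
    · intro k' _ hk'
      rw [Pi.smul_apply, Pi.single_eq_of_ne hk'.symm, smul_zero]
    · intro h
      exact absurd (Finset.mem_univ k) h
  rw [h1, φ.map_update_sum]
  refine Finset.sum_congr rfl fun k _ => ?_
  rw [φ.map_update_smul, smul_eq_mul]
  congr 1
  unfold cf
  congr 1
  funext l'
  by_cases h : l' = l
  · subst h
    rw [Function.update_self, Function.update_self]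
  · rw [Function.update_of_ne h, Function.update_of_ne h]

theorem kil_iff (X : End K (Fin n → K)) (φ : Fm K (Fin n → K) d) :
    Kil X φ ↔ Kd (LinearMap.toMatrix' X) (cf φ) := by
  constructor
  · intro h b
    rw [← crd_sum]
    exact h _
  · intro h
    have h1 : dsum φ X = 0 := by
      refine Basis.ext_multilinear (fun _ => Pi.basisFun K (Fin n)) fun b => ?_
      simp only [Pi.basisFun_apply]
      rw [dsum_apply, _root_.zero_apply]
      have h2 := crd_sum φ X b
      rw [h b] at h2
      exact h2
    intro v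
    rw [← dsum_apply, h1, _root_.zero_apply]

theorem kd_iff (M : Matrix (Fin n) (Fin n) K) (t : (Fin d → Fin n) → K) :
    Kd M t ↔ Kil (Matrix.toLin' M) (fm t) := by
  rw [kil_iff, LinearMap.toMatrix'_toLin', cf_fm']

theorem Kd.add {M N : Matrix (Fin n) (Fin n) K} {t : (Fin d → Fin n) → K} (hM : Kd M t)
    (hN : Kd N t) : Kd (M + N) t := by
  rw [kd_iff] at hM hN ⊢
  rw [map_add]
  exact hM.add hN

theorem Kd.smul {M : Matrix (Fin n) (Fin n) K} {t : (Fin d → Fin n) → K} (hM : Kd M t)
    (c : K) : Kd (c • M) t := by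
  rw [kd_iff] at hM ⊢
  rw [map_smul]
  exact hM.smul c

theorem Kd.zero (t : (Fin d → Fin n) → K) : Kd (0 : Matrix (Fin n) (Fin n) K) t := by
  rw [kd_iff, map_zero]
  exact Kil.zero _

theorem Kd.bracket {M N : Matrix (Fin n) (Fin n) K} {t : (Fin d → Fin n) → K} (hM : Kd M t)
    (hN : Kd N t) : Kd (M * N - N * M) t := by
  rw [kd_iff] at hM hN ⊢
  rw [map_sub, Matrix.toLin'_mul, Matrix.toLin'_mul]
  exact hM.bracket hN

/-- The derivation of a form given by coefficients. -/
theorem fm_kd {M : Matrix (Fin n) (Fin n) K} {t : (Fin d → Fin n) → K} (h : Kd M t)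
    (v : Fin d → Fin n → K) : ∑ l, fm t (Function.update v l (M.mulVec (v l))) = 0 := by
  have h1 := (kd_iff M t).1 h v
  simp only [Matrix.toLin'_apply] at h1
  exact h1

theorem kd_of_fm {M : Matrix (Fin n) (Fin n) K} {t : (Fin d → Fin n) → K}
    (h : ∀ v : Fin d → Fin n → K, ∑ l, fm t (Function.update v l (M.mulVec (v l))) = 0) :
    Kd M t := by
  rw [kd_iff]
  intro v
  simp only [Matrix.toLin'_apply]
  exact h v

end coord

section descent

variable {K : Type} [Field K] [CharZero K] {n d : ℕ}

theorem fnl_kd (f : K →ₗ[ℚ] ℚ) {M : Matrix (Fin n) (Fin n) K} {c : (Fin d → Fin n) → ℚ}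
    (h : Kd M (fun b => (c b : K))) : Kd (fnl f M) c := by
  intro b
  have h1 := congrArg f (h b)
  rw [map_zero, map_sum] at h1
  rw [← h1]
  refine Finset.sum_congr rfl fun l _ => ?_
  rw [map_sum]
  refine Finset.sum_congr rfl fun k _ => ?_
  rw [dual_mul']
  rfl

theorem kd_of_fnl {M : Matrix (Fin n) (Fin n) K} {c : (Fin d → Fin n) → ℚ}
    (h : ∀ f : K →ₗ[ℚ] ℚ, Kd (fnl f M) c) : Kd M (fun b => (c b : K)) := by
  intro b
  refine eq_zero_of_dual fun f => ?_
  rw [map_sum, ← h f b]
  refine Finset.sum_congr rfl fun l _ => ?_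
  rw [map_sum]
  refine Finset.sum_congr rfl fun k _ => ?_
  rw [dual_mul']
  rfl

theorem kd_cst {N : Matrix (Fin n) (Fin n) ℚ} {c : (Fin d → Fin n) → ℚ} (h : Kd N c) :
    Kd (cst K N) (fun b => (c b : K)) := by
  intro b
  have h1 := congrArg (fun q : ℚ => (q : K)) (h b)
  simp only [Rat.cast_sum, Rat.cast_mul, Rat.cast_zero] at h1
  exact h1

end descent

end Pool.Agent.U980.HL
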