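import Mathlib
import Pool.Agent.U980.HL.Form
import Pool.Agent.U980.HL.Defs

/-!
# Hodge structures given by the derivative of the circle, and Hodge forms
-/

set_option autoImplicit false
set_option linter.unusedSectionVars false

namespace Pool.Agent.U980.HL

open Module Pool.Agent.R913.Adj Pool.Agent.U980.MF NormedSpace
open scoped Matrix.Norms.Operator

variable {n d : ℕ}

theorem value_eq (t : (Fin d → Fin n) → ℚ) (v : Fin d → Fin n → ℝ) :
    value t v = fm (fun b => (t b : ℝ)) v := (fm_apply _ _).symm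

theorem exp_zero_smul (j : Matrix (Fin n) (Fin n) ℝ) : exp ((0 : ℝ) • j) = 1 := by
  rw [zero_smul, exp_zero]

theorem exp_mul_neg (j : Matrix (Fin n) (Fin n) ℝ) (θ : ℝ) :
    exp (θ • j) * exp ((-θ) • j) = 1 := by
  have h : Commute (θ • j) ((-θ) • j) := by
    exact ((Commute.refl j).smul_left θ).smul_right (-θ)
  rw [← Matrix.exp_add_of_commute _ _ h, ← add_smul, add_neg_cancel, zero_smul, exp_zero]

theorem exp_neg_mul (j : Matrix (Fin n) (Fin n) ℝ) (θ : ℝ) :
    exp ((-θ) • j) * exp (θ • j) = 1 := by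
  have h := exp_mul_neg j (-θ)
  rwa [neg_neg] at h

/-- The derivative of a form along the one-parameter group. -/
theorem deriv_fm (t : (Fin d → Fin n) → ℝ) (j : Matrix (Fin n) (Fin n) ℝ)
    (v : Fin d → Fin n → ℝ) (θ : ℝ) :
    HasDerivAt (fun θ : ℝ => fm t (fun l => (exp (θ • j)).mulVec (v l)))
      (∑ l, fm t (Function.update (fun l => (exp (θ • j)).mulVec (v l)) l
        (j.mulVec ((exp (θ • j)).mulVec (v l))))) θ := by
  have h0 : HasDerivAt (fun θ : ℝ => exp (θ • j)) (j * exp (θ • j)) θ :=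
    hasDerivAt_exp_smul_const' j θ
  have he : ∀ i k, HasDerivAt (fun θ : ℝ => (exp (θ • j)) i k) ((j * exp (θ • j)) i k) θ := by
    intro i k
    let L : Matrix (Fin n) (Fin n) ℝ →L[ℝ] ℝ :=
      LinearMap.toContinuousLinearMap (Matrix.entryLinearMap ℝ ℝ i k)
    exact L.hasFDerivAt.comp_hasDerivAt θ h0
  have hc : ∀ (l : Fin d) (i : Fin n), HasDerivAt (fun θ : ℝ => (exp (θ • j)).mulVec (v l) i)
      ((j.mulVec ((exp (θ • j)).mulVec (v l))) i) θ := by
    intro l i
    have h1 : HasDerivAt (fun θ : ℝ => ∑ k, (exp (θ • j)) i k * v l k)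
        (∑ k, (j * exp (θ • j)) i k * v l k) θ :=
      HasDerivAt.fun_sum fun k _ => (he i k).mul_const (v l k)
    have h2 : (j.mulVec ((exp (θ • j)).mulVec (v l))) i =
        ∑ k, (j * exp (θ • j)) i k * v l k := by
      rw [Matrix.mulVec_mulVec]
      rfl
    rw [h2]
    exact h1
  have hp : ∀ b : Fin d → Fin n,
      HasDerivAt (fun θ : ℝ => t b * ∏ l, (exp (θ • j)).mulVec (v l) (b l))
        (t b * ∑ l, (∏ l' ∈ Finset.univ.erase l, (exp (θ • j)).mulVec (v l') (b l')) •
          (j.mulVec ((exp (θ • j)).mulVec (v l))) (b l)) θ := by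
    intro b
    exact (HasDerivAt.fun_finsetProd fun l _ => hc l (b l)).const_mul (t b)
  have hs := HasDerivAt.fun_sum (u := Finset.univ) fun b _ => hp b
  have h1 : (fun θ : ℝ => fm t (fun l => (exp (θ • j)).mulVec (v l))) =
      fun θ : ℝ => ∑ b, t b * ∏ l, (exp (θ • j)).mulVec (v l) (b l) := by
    funext θ
    exact fm_apply _ _
  rw [h1]
  have h2 : ∀ l, fm t (Function.update (fun l => (exp (θ • j)).mulVec (v l)) l
      (j.mulVec ((exp (θ • j)).mulVec (v l)))) = ∑ b, t b *
        ((∏ l' ∈ Finset.univ.erase l, (exp (θ • j)).mulVec (v l') (b l')) •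
          (j.mulVec ((exp (θ • j)).mulVec (v l))) (b l)) := by
    intro l
    rw [fm_apply]
    refine Finset.sum_congr rfl fun b _ => ?_
    congr 1
    rw [← Finset.mul_prod_erase _ _ (Finset.mem_univ l), Function.update_self, smul_eq_mul,
      mul_comm]
    congr 1
    refine Finset.prod_congr rfl fun l' hl' => ?_
    rw [Function.update_of_ne (Finset.ne_of_mem_erase hl')]
  have h3 : (∑ l, fm t (Function.update (fun l => (exp (θ • j)).mulVec (v l)) l
      (j.mulVec ((exp (θ • j)).mulVec (v l))))) = ∑ b, t b *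
        ∑ l, (∏ l' ∈ Finset.univ.erase l, (exp (θ • j)).mulVec (v l') (b l')) •
          (j.mulVec ((exp (θ • j)).mulVec (v l))) (b l) := by
    rw [Finset.sum_congr rfl fun l _ => h2 l, Finset.sum_comm]
    refine Finset.sum_congr rfl fun b _ => ?_
    rw [Finset.mul_sum]
  rw [h3]
  exact hs

theorem fixed_of_kd {t : (Fin d → Fin n) → ℝ} {j : Matrix (Fin n) (Fin n) ℝ} (h : Kd j t)
    (θ : ℝ) (v : Fin d → Fin n → ℝ) :
    fm t (fun l => (exp (θ • j)).mulVec (v l)) = fm t v := by
  have h1 : ∀ θ, HasDerivAt (fun θ : ℝ => fm t (fun l => (exp (θ • j)).mulVec (v l))) 0 θ := by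
    intro θ
    have h2 := deriv_fm t j v θ
    rwa [fm_kd h] at h2
  have h2 := is_const_of_deriv_eq_zero (fun θ => (h1 θ).differentiableAt) (fun θ => (h1 θ).deriv)
    θ 0
  simp only [exp_zero_smul, Matrix.one_mulVec] at h2
  exact h2

theorem kd_of_fixed {t : (Fin d → Fin n) → ℝ} {j : Matrix (Fin n) (Fin n) ℝ}
    (h : ∀ (θ : ℝ) (v : Fin d → Fin n → ℝ),
      fm t (fun l => (exp (θ • j)).mulVec (v l)) = fm t v) : Kd j t := by
  refine kd_of_fm fun v => ?_
  have h1 := deriv_fm t j v 0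
  have h2 : (fun θ : ℝ => fm t (fun l => (exp (θ • j)).mulVec (v l))) = fun _ => fm t v :=
    funext fun θ => h θ v
  rw [h2] at h1
  have h3 := h1.unique (hasDerivAt_const (0 : ℝ) (fm t v))
  simp only [exp_zero_smul, Matrix.one_mulVec] at h3
  exact h3

theorem isHodge_iff (j : Matrix (Fin n) (Fin n) ℝ) (t : (Fin d → Fin n) → ℚ) :
    IsHodge j t ↔ Kd j (fun b => (t b : ℝ)) := by
  constructor
  · intro h
    refine kd_of_fixed fun θ v => ?_
    rw [← value_eq, ← value_eq]
    exact h θ v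
  · intro h θ v
    rw [value_eq, value_eq]
    exact fixed_of_kd h θ v

end Pool.Agent.U980.HL
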