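import Mathlib
import Pool.Agent.U980.HL.Circle

/-!
# The Lie algebra of the Mumford-Tate group, any weight
-/

set_option autoImplicit false
set_option linter.unusedSectionVars false

namespace Pool.Agent.U980.HL

open Module Pool.Agent.R913.Adj Pool.Agent.U980.MF NormedSpace Matrix
open scoped Matrix.Norms.Operator

variable {n : ℕ}

/-- The matrices with entries in `K` which kill all Hodge forms of `j`. -/
def hl (K : Type) [Field K] [CharZero K] (j : Matrix (Fin n) (Fin n) ℝ) :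
    Submodule K (Matrix (Fin n) (Fin n) K) where
  carrier := {M | ∀ (d : ℕ) (t : (Fin d → Fin n) → ℚ), IsHodge j t → Kd M (fun b => (t b : K))}
  add_mem' := fun hX hY d t ht => (hX d t ht).add (hY d t ht)
  zero_mem' := fun _ _ _ => Kd.zero _
  smul_mem' := fun a _ hX d t ht => (hX d t ht).smul a

variable {j : Matrix (Fin n) (Fin n) ℝ} {Q : Matrix (Fin n) (Fin n) ℚ}

section gen

variable {K : Type} [Field K] [CharZero K]

theorem hl_lie {M N : Matrix (Fin n) (Fin n) K} (hM : M ∈ hl K j) (hN : N ∈ hl K j) :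
    M * N - N * M ∈ hl K j := fun d t ht => (hM d t ht).bracket (hN d t ht)

theorem hl_fnl {M : Matrix (Fin n) (Fin n) K} (h : M ∈ hl K j) (f : K →ₗ[ℚ] ℚ) :
    fnl f M ∈ hl ℚ j := by
  intro d t ht
  have h1 := fnl_kd f (h d t ht)
  simp only [Rat.cast_id]
  exact h1

theorem hl_cst {N : Matrix (Fin n) (Fin n) ℚ} (h : N ∈ hl ℚ j) : cst K N ∈ hl K j := by
  intro d t ht
  have h1 := h d t ht
  simp only [Rat.cast_id] at h1
  exact kd_cst h1

theorem hl_of_fnl {M : Matrix (Fin n) (Fin n) K} (h : ∀ f : K →ₗ[ℚ] ℚ, fnl f M ∈ hl ℚ j) :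
    M ∈ hl K j := by
  intro d t ht
  refine kd_of_fnl fun f => ?_
  have h1 := h f d t ht
  simp only [Rat.cast_id] at h1
  exact h1

theorem kd_bil (M B : Matrix (Fin n) (Fin n) K) :
    Kd (d := 2 * 1) M (bil B) ↔ M.transpose * B + B * M = 0 := cd_bil M B

end gen

theorem j_mem : j ∈ hl ℝ j := fun _ t ht => (isHodge_iff j t).1 ht

theorem hodge_of_hl {j' : Matrix (Fin n) (Fin n) ℝ} (h : j' ∈ hl ℝ j) {d : ℕ}
    {t : (Fin d → Fin n) → ℚ} (ht : IsHodge j t) : IsHodge j' t :=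
  (isHodge_iff j' t).2 (h d t ht)

theorem hodge_of_rat {d : ℕ} {t : (Fin d → Fin n) → ℚ}
    (h : ∀ N ∈ hl ℚ j, Kd N t) : IsHodge j t :=
  (isHodge_iff j t).2 (kd_of_fnl fun f => h _ (hl_fnl j_mem f))

theorem hodge_bil {B : Matrix (Fin n) (Fin n) ℚ}
    (h : j.transpose * cst ℝ B + cst ℝ B * j = 0) : IsHodge (d := 2 * 1) j (bil B) := by
  rw [isHodge_iff, bil_cst]
  exact (kd_bil _ _).2 h

section pol

variable (hp : Polarized Q j)
include hp

theorem skew_j : j.transpose * cst ℝ Q + cst ℝ Q * j = 0 := hp.skew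

theorem hl_skew {K : Type} [Field K] [CharZero K] {M : Matrix (Fin n) (Fin n) K}
    (h : M ∈ hl K j) : M.transpose * cst K Q + cst K Q * M = 0 := by
  have h1 := h (2 * 1) _ (hodge_bil (skew_j hp))
  rw [bil_cst] at h1
  exact (kd_bil _ _).1 h1

theorem hl_skew' {K : Type} [Field K] [CharZero K] {M : Matrix (Fin n) (Fin n) K}
    (h : M ∈ hl K j) : cst K Q * M = -(M.transpose * cst K Q) := by
  rw [eq_neg_iff_add_eq_zero, add_comm]
  exact hl_skew hp h

theorem Q_det : Q.det ≠ 0 := by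
  intro h
  have h1 := hp.pos.det_pos
  rw [Matrix.det_mul] at h1
  have h2 : (Q.map (Rat.cast : ℚ → ℝ)).det = ((Q.det : ℚ) : ℝ) :=
    ((Rat.castHom ℝ).map_det Q).symm
  rw [h2, h, Rat.cast_zero, zero_mul] at h1
  exact lt_irrefl _ h1

theorem Q_unit (K : Type) [Field K] [CharZero K] : IsUnit (cst K Q).det := by
  have h2 : (cst K Q).det = ((Q.det : ℚ) : K) := ((Rat.castHom K).map_det Q).symm
  rw [h2, isUnit_iff_ne_zero]
  exact Rat.cast_ne_zero.2 (Q_det hp)

/-- The endomorphisms of the Hodge structure commute with the Lie algebra. -/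
theorem hl_comm {N : Matrix (Fin n) (Fin n) ℚ} (hN : cst ℝ N * j = j * cst ℝ N)
    {K : Type} [Field K] [CharZero K] {M : Matrix (Fin n) (Fin n) K} (h : M ∈ hl K j) :
    M * cst K N = cst K N * M := by
  have h0 : IsHodge (d := 2 * 1) j (bil (N.transpose * Q)) := by
    refine hodge_bil ?_
    rw [cst_mul, cst_transpose, ← Matrix.mul_assoc, ← Matrix.transpose_mul, hN,
      Matrix.transpose_mul, Matrix.mul_assoc, Matrix.mul_assoc, ← Matrix.mul_add, skew_j hp,
      Matrix.mul_zero]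
  have h1 := h (2 * 1) _ h0
  rw [bil_cst, kd_bil, cst_mul, cst_transpose] at h1
  have h3 := hl_skew' hp h
  rw [Matrix.mul_assoc _ _ M, h3, Matrix.mul_neg, ← Matrix.mul_assoc, ← Matrix.mul_assoc,
    ← Matrix.transpose_mul, ← Matrix.transpose_mul, ← sub_eq_add_neg, sub_eq_zero] at h1
  have h4 := (Matrix.isUnit_iff_isUnit_det _).2 (Q_unit hp K)
  have h5 := h4.mul_right_cancel h1
  have h6 := congrArg Matrix.transpose h5
  rw [Matrix.transpose_transpose, Matrix.transpose_transpose] at h6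
  exact h6.symm

end pol

/-- A form is fixed by the one-parameter groups of the Lie algebra. -/
theorem fixed_mem {M : Matrix (Fin n) (Fin n) ℝ} (hM : M ∈ hl ℝ j) {d : ℕ}
    {t : (Fin d → Fin n) → ℚ} (ht : IsHodge j t) (θ : ℝ) (v : Fin d → Fin n → ℝ) :
    value t (fun l => (exp (θ • M)).mulVec (v l)) = value t v :=
  hodge_of_hl hM ht θ v

/-- The conjugate of a Hodge structure by an element of the group. -/
theorem hodge_conj {j' M : Matrix (Fin n) (Fin n) ℝ} (hM : M ∈ hl ℝ j) (hj' : j' ∈ hl ℝ j)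
    {d : ℕ} {t : (Fin d → Fin n) → ℚ} (ht : IsHodge j t) (s : ℝ) :
    IsHodge (exp (s • M) * j' * exp ((-s) • M)) t := by
  intro θ v
  have hu : IsUnit (exp (s • M)) := Matrix.isUnit_exp _
  have hinv : (exp (s • M))⁻¹ = exp ((-s) • M) := by
    rw [neg_smul, Matrix.exp_neg]
  have h1 : exp (θ • (exp (s • M) * j' * exp ((-s) • M))) =
      exp (s • M) * exp (θ • j') * exp ((-s) • M) := by
    rw [← hinv, ← Matrix.exp_conj _ _ hu]
    congr 1
    rw [Matrix.mul_smul, Matrix.smul_mul]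
  rw [h1]
  have h2 : (fun l => (exp (s • M) * exp (θ • j') * exp ((-s) • M)).mulVec (v l)) =
      fun l => (exp (s • M)).mulVec ((exp (θ • j')).mulVec ((exp ((-s) • M)).mulVec (v l))) := by
    funext l
    rw [Matrix.mulVec_mulVec, Matrix.mulVec_mulVec]
  rw [h2, fixed_mem hM ht, fixed_mem hj' ht, fixed_mem hM ht]

theorem conj_mem {j' M : Matrix (Fin n) (Fin n) ℝ} (hM : M ∈ hl ℝ j) (hj' : j' ∈ hl ℝ j)
    (s : ℝ) : exp (s • M) * j' * exp ((-s) • M) ∈ hl ℝ j :=
  fun _ t ht => (isHodge_iff _ t).1 (hodge_conj hM hj' ht s)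

theorem nondeg_real (hp : Polarized Q j) {M : Matrix (Fin n) (Fin n) ℝ} (hM : M ∈ hl ℝ j)
    (h : ∀ Y ∈ hl ℝ j, (M * Y).trace = 0) : M = 0 := by
  have hC := exp_mul_neg j (Real.pi / 2)
  have hY : exp ((-(Real.pi / 2)) • j) * M * exp ((Real.pi / 2) • j) ∈ hl ℝ j := by
    have h1 := conj_mem (j' := M) j_mem hM (-(Real.pi / 2))
    rwa [neg_neg] at h1
  refine zero_of_adjoint hp.pos
    (Y := -(exp ((-(Real.pi / 2)) • j) * M * exp ((Real.pi / 2) • j))) ?_ ?_
  · have h2 : Q.map (Rat.cast : ℚ → ℝ) * M = -(M.transpose * Q.map (Rat.cast : ℚ → ℝ)) :=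
      hl_skew' hp hM
    have h3 : Q.map (Rat.cast : ℚ → ℝ) * exp ((Real.pi / 2) • j) *
        -(exp ((-(Real.pi / 2)) • j) * M * exp ((Real.pi / 2) • j)) =
        -(Q.map (Rat.cast : ℚ → ℝ) *
          (exp ((Real.pi / 2) • j) * exp ((-(Real.pi / 2)) • j)) * M *
          exp ((Real.pi / 2) • j)) := by
      rw [Matrix.mul_neg]
      simp only [Matrix.mul_assoc]
    rw [h3, hC, Matrix.mul_one, h2, Matrix.neg_mul, neg_neg, Matrix.mul_assoc]
  · rw [Matrix.mul_neg, Matrix.trace_neg, h _ hY, neg_zero]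

theorem nondeg_rat (hp : Polarized Q j) {M : Matrix (Fin n) (Fin n) ℚ} (hM : M ∈ hl ℚ j)
    (h : ∀ Y ∈ hl ℚ j, (M * Y).trace = 0) : M = 0 := by
  have h2 : cst ℝ M = 0 := by
    refine nondeg_real hp (hl_cst hM) fun Y hY => eq_zero_of_dual fun g => ?_
    rw [tr_fnl', h _ (hl_fnl hY g)]
  refine cst_inj (K := ℝ) (h2.trans ?_)
  ext a b
  exact Rat.cast_zero.symm

end Pool.Agent.U980.HL
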