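import Mathlib
import Pool.Agent.U980.HL.Lie

/-!
# The rational projection onto the Lie algebra, and the quartic class
-/

set_option autoImplicit false
set_option linter.unusedSectionVars false

namespace Pool.Agent.U980.HL

open Module Pool.Agent.R913.Adj Pool.Agent.U980.MF Pool.Agent.U980.AD NormedSpace Matrix

variable {n : ℕ}

theorem exists_pr (L : Submodule ℚ (Matrix (Fin n) (Fin n) ℚ))
    (hnd : ∀ X ∈ L, (∀ Y ∈ L, (X * Y).trace = 0) → X = 0) :
    ∃ P : Matrix (Fin n) (Fin n) ℚ →ₗ[ℚ] Matrix (Fin n) (Fin n) ℚ, (∀ A, P A ∈ L) ∧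
      (∀ A ∈ L, P A = A) ∧ ∀ A, ∀ W ∈ L, (P A * W).trace = (A * W).trace := by
  let B : Matrix (Fin n) (Fin n) ℚ →ₗ[ℚ] Dual ℚ L :=
    { toFun := fun A => (Matrix.traceLinearMap (Fin n) ℚ ℚ) ∘ₗ (LinearMap.mulLeft ℚ A) ∘ₗ L.subtype
      map_add' := fun A A' => by
        ext W
        simp [add_mul]
      map_smul' := fun c A => by
        ext W
        simp }
  have hB : ∀ A (W : L), B A W = (A * W).trace := fun A W => rfl
  have hinj : Function.Injective (B ∘ₗ L.subtype) := by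
    rw [injective_iff_map_eq_zero]
    intro X hX
    apply Subtype.ext
    refine hnd X.1 X.2 fun Y hY => ?_
    exact LinearMap.congr_fun hX ⟨Y, hY⟩
  let e : L ≃ₗ[ℚ] Dual ℚ L := LinearMap.linearEquivOfInjective (B ∘ₗ L.subtype) hinj
    (Subspace.dual_finrank_eq).symm
  have he : ∀ X : L, e X = B X.1 := fun X => rfl
  refine ⟨L.subtype ∘ₗ e.symm.toLinearMap ∘ₗ B, fun A => (e.symm (B A)).2, fun A hA => ?_, ?_⟩
  · have h1 : e.symm (B A) = ⟨A, hA⟩ := by
      rw [LinearEquiv.symm_apply_eq, he]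
    change ((e.symm (B A) : L) : Matrix (Fin n) (Fin n) ℚ) = A
    rw [h1]
  · intro A W hW
    change (((e.symm (B A) : L) : Matrix (Fin n) (Fin n) ℚ) * W).trace = _
    have h1 : e (e.symm (B A)) = B A := e.apply_symm_apply _
    rw [he] at h1
    exact LinearMap.congr_fun h1 ⟨W, hW⟩

/-- The real extension of a rational map of the space of matrices. -/
noncomputable def ext (P : Matrix (Fin n) (Fin n) ℚ →ₗ[ℚ] Matrix (Fin n) (Fin n) ℚ) :
    Matrix (Fin n) (Fin n) ℝ →ₗ[ℝ] Matrix (Fin n) (Fin n) ℝ where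
  toFun M := ∑ k, ∑ l, M k l • cst ℝ (P (Matrix.single k l 1))
  map_add' M N := by
    simp only [Matrix.add_apply, add_smul, Finset.sum_add_distrib]
  map_smul' c M := by
    simp only [Matrix.smul_apply, smul_eq_mul, mul_smul, RingHom.id_apply, Finset.smul_sum]

theorem ext_apply (P : Matrix (Fin n) (Fin n) ℚ →ₗ[ℚ] Matrix (Fin n) (Fin n) ℚ)
    (M : Matrix (Fin n) (Fin n) ℝ) :
    ext P M = ∑ k, ∑ l, M k l • cst ℝ (P (Matrix.single k l 1)) := rfl

theorem fnl_ext (P : Matrix (Fin n) (Fin n) ℚ →ₗ[ℚ] Matrix (Fin n) (Fin n) ℚ)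
    (f : ℝ →ₗ[ℚ] ℚ) (M : Matrix (Fin n) (Fin n) ℝ) : fnl f (ext P M) = P (fnl f M) := by
  have h1 : fnl f M = ∑ k, ∑ l, (f (M k l)) • Matrix.single k l (1 : ℚ) := by
    conv_lhs => rw [Matrix.matrix_eq_sum_single (fnl f M)]
    refine Finset.sum_congr rfl fun k _ => Finset.sum_congr rfl fun l _ => ?_
    rw [Matrix.smul_single, smul_eq_mul, mul_one]
    rfl
  rw [h1, map_sum]
  ext a b
  change f (ext P M a b) = _
  rw [ext_apply, Matrix.sum_apply, map_sum, Matrix.sum_apply]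
  refine Finset.sum_congr rfl fun k _ => ?_
  rw [Matrix.sum_apply, map_sum, map_sum, Matrix.sum_apply]
  refine Finset.sum_congr rfl fun l _ => ?_
  rw [map_smul, Matrix.smul_apply, Matrix.smul_apply, smul_eq_mul, smul_eq_mul]
  exact dual_mul' f _ _

theorem eq_of_fnl {K : Type} [Field K] [CharZero K] {M N : Matrix (Fin n) (Fin n) K}
    (h : ∀ f : K →ₗ[ℚ] ℚ, fnl f M = fnl f N) : M = N := by
  ext a b
  rw [← sub_eq_zero]
  refine eq_zero_of_dual fun f => ?_
  rw [map_sub, sub_eq_zero]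
  exact congrFun (congrFun (h f) a) b

theorem ext_cst (P : Matrix (Fin n) (Fin n) ℚ →ₗ[ℚ] Matrix (Fin n) (Fin n) ℚ)
    (N : Matrix (Fin n) (Fin n) ℚ) : ext P (cst ℝ N) = cst ℝ (P N) := by
  refine eq_of_fnl fun f => ?_
  rw [fnl_ext]
  have h : ∀ A : Matrix (Fin n) (Fin n) ℚ, fnl f (cst ℝ A) = f 1 • A := by
    intro A
    ext a b
    change f (A a b : ℝ) = f 1 * A a b
    rw [mul_comm, ← dual_mul, mul_one]
  rw [h, h, map_smul]

/-- A matrix is a real combination of its rational components. -/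
theorem sum_basis (M : Matrix (Fin n) (Fin n) ℝ) :
    ∃ (s : Finset ℝ) (f : ℝ → ℝ →ₗ[ℚ] ℚ), M = ∑ i ∈ s, i • cst ℝ (fnl (f i) M) := by
  classical
  let B := Basis.ofVectorSpace ℚ ℝ
  let s := Finset.univ.biUnion fun b : Fin n × Fin n => (B.repr (M b.1 b.2)).support
  let f : ℝ → ℝ →ₗ[ℚ] ℚ := fun x => if h : x ∈ Basis.ofVectorSpaceIndex ℚ ℝ then
    B.coord ⟨x, h⟩ else 0
  refine ⟨s.image (fun i => (B i : ℝ)), f, ?_⟩
  have hBi : ∀ i : Basis.ofVectorSpaceIndex ℚ ℝ, B i = (i : ℝ) := fun i => by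
    exact Basis.ofVectorSpace_apply_self ℚ ℝ i
  have hinj : Set.InjOn (fun i => (B i : ℝ)) (s : Set (Basis.ofVectorSpaceIndex ℚ ℝ)) :=
    fun a _ b _ h => B.injective h
  rw [Finset.sum_image hinj]
  ext a b
  rw [Matrix.sum_apply]
  have h1 : ∀ i ∈ s, ((B i) • cst ℝ (fnl (f (B i)) M)) a b =
      (B i) * ((B.repr (M a b) i : ℚ) : ℝ) := by
    intro i _
    have h2 : f (B i) = B.coord i := by
      have h3 : (B i : ℝ) ∈ Basis.ofVectorSpaceIndex ℚ ℝ := by
        rw [hBi]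
        exact i.2
      change (if h : B i ∈ Basis.ofVectorSpaceIndex ℚ ℝ then B.coord ⟨B i, h⟩ else 0) = _
      rw [dif_pos h3]
      congr 1
      exact Subtype.ext (hBi i)
    rw [h2]
    rfl
  rw [Finset.sum_congr rfl h1]
  conv_lhs => rw [← B.linearCombination_repr (M a b), Finsupp.linearCombination_apply]
  rw [Finsupp.sum_of_support_subset (s := s)]
  · refine Finset.sum_congr rfl fun i _ => ?_
    rw [Algebra.smul_def, mul_comm]
    rfl
  · exact Finset.subset_biUnion_of_mem (fun b : Fin n × Fin n => (B.repr (M b.1 b.2)).support)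
      (Finset.mem_univ (a, b))
  · intro i _
    rw [zero_smul]

variable {j : Matrix (Fin n) (Fin n) ℝ} {Q : Matrix (Fin n) (Fin n) ℚ}

/-- The real projection onto the Lie algebra, with rational coefficients. -/
theorem exists_real (hp : Polarized Q j) :
    ∃ P : Matrix (Fin n) (Fin n) ℚ →ₗ[ℚ] Matrix (Fin n) (Fin n) ℚ,
      (∀ A, ext P A ∈ hl ℝ j) ∧ (∀ A ∈ hl ℝ j, ext P A = A) ∧
      ∀ A, ∀ W ∈ hl ℝ j, (ext P A * W).trace = (A * W).trace := by
  obtain ⟨P, h1, h2, h3⟩ := exists_pr (hl ℚ j) fun X hX h => nondeg_rat hp hX h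
  refine ⟨P, fun A => hl_of_fnl fun f => ?_, fun A hA => eq_of_fnl fun f => ?_, fun A W hW => ?_⟩
  · rw [fnl_ext]
    exact h1 _
  · rw [fnl_ext]
    exact h2 _ (hl_fnl hA f)
  · have hq : ∀ N ∈ hl ℚ j, (ext P A * cst ℝ N).trace = (A * cst ℝ N).trace := by
      intro N hN
      rw [← sub_eq_zero]
      refine eq_zero_of_dual fun f => ?_
      rw [map_sub, tr_fnl, tr_fnl, fnl_ext, h3 _ _ hN, sub_self]
    obtain ⟨s, f, hs⟩ := sum_basis W
    rw [hs, Finset.mul_sum, Finset.mul_sum, Matrix.trace_sum, Matrix.trace_sum]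
    refine Finset.sum_congr rfl fun i _ => ?_
    rw [Matrix.mul_smul, Matrix.mul_smul, Matrix.trace_smul, Matrix.trace_smul,
      hq _ (hl_fnl hW _)]

end Pool.Agent.U980.HL
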