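import Mathlib
import Pool.Agent.U980.HL.Proj
import Pool.Agent.U980.MF.Quart

/-!
# The quartic class
-/

set_option autoImplicit false
set_option linter.unusedSectionVars false

namespace Pool.Agent.U980.HL

open Module Pool.Agent.Y114.RM Pool.Agent.Y114.TF Pool.Agent.R913.Adj Pool.Agent.U980.MF
  Pool.Agent.U980.AD NormedSpace Matrix

variable {n : ℕ}

/-- The real bilinear form with the matrix `Q`. -/
noncomputable def bq (Q : Matrix (Fin n) (Fin n) ℚ) :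
    (Fin n → ℝ) →ₗ[ℝ] (Fin n → ℝ) →ₗ[ℝ] ℝ := Matrix.toLinearMap₂' ℝ (cst ℝ Q)

theorem bq_apply (Q : Matrix (Fin n) (Fin n) ℚ) (x y : Fin n → ℝ) :
    bq Q x y = x ⬝ᵥ (cst ℝ Q *ᵥ y) := Matrix.toLinearMap₂'_apply' _ _ _

theorem bq_nondeg {Q : Matrix (Fin n) (Fin n) ℚ} (hQ : IsUnit (cst ℝ Q).det) :
    ∀ x, (∀ y, bq Q x y = 0) → x = 0 := by
  intro x h
  have h1 : x ᵥ* cst ℝ Q = 0 := by
    funext j
    have h2 := h (Pi.single j 1)
    rw [bq_apply, Matrix.dotProduct_mulVec] at h2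
    rw [dotProduct_single, mul_one] at h2
    exact h2
  have h3 : x ᵥ* cst ℝ Q ᵥ* (cst ℝ Q)⁻¹ = x := by
    rw [Matrix.vecMul_vecMul, Matrix.mul_nonsing_inv _ hQ, Matrix.vecMul_one]
  rw [← h3, h1, Matrix.zero_vecMul]

theorem bq_sh {Q : Matrix (Fin n) (Fin n) ℚ} (hQ : IsUnit (cst ℝ Q).det) :
    ∃ sh : Dual ℝ (Fin n → ℝ) →ₗ[ℝ] (Fin n → ℝ), ∀ ξ y, bq Q (sh ξ) y = ξ y := by
  have hinj : Function.Injective (bq Q) := by
    rw [injective_iff_map_eq_zero]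
    intro x hx
    exact bq_nondeg hQ x fun y => by rw [hx, LinearMap.zero_apply]
  let e : (Fin n → ℝ) ≃ₗ[ℝ] Dual ℝ (Fin n → ℝ) :=
    LinearMap.linearEquivOfInjective (bq Q) hinj (Subspace.dual_finrank_eq).symm
  refine ⟨e.symm.toLinearMap, fun ξ y => ?_⟩
  have h1 : e (e.symm ξ) = ξ := e.apply_symm_apply ξ
  exact LinearMap.congr_fun h1 y

theorem bq_skew {Q : Matrix (Fin n) (Fin n) ℚ} {M : Matrix (Fin n) (Fin n) ℝ}
    (h : M.transpose * cst ℝ Q + cst ℝ Q * M = 0) (x y : Fin n → ℝ) :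
    bq Q (Matrix.toLin' M x) y + bq Q x (Matrix.toLin' M y) = 0 := by
  rw [bq_apply, bq_apply, Matrix.toLin'_apply, Matrix.toLin'_apply]
  have h3 : (M *ᵥ x) ⬝ᵥ (cst ℝ Q *ᵥ y) = x ⬝ᵥ ((M.transpose * cst ℝ Q) *ᵥ y) := by
    rw [← Matrix.mulVec_mulVec, Matrix.dotProduct_mulVec x, Matrix.vecMul_transpose]
  rw [h3, Matrix.mulVec_mulVec, ← dotProduct_add, ← Matrix.add_mulVec, h, Matrix.zero_mulVec,
    dotProduct_zero]

/-- The matrix of `v ↦ Q (e_b, v) e_a`. -/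
def rkm (Q : Matrix (Fin n) (Fin n) ℚ) (a b : Fin n) : Matrix (Fin n) (Fin n) ℚ :=
  fun k l => if k = a then Q b l else 0

/-- The coefficients of the form `Q (P (v ↦ Q (y, v) x) z, w)`. -/
noncomputable def quartic (Q : Matrix (Fin n) (Fin n) ℚ)
    (P : Matrix (Fin n) (Fin n) ℚ →ₗ[ℚ] Matrix (Fin n) (Fin n) ℚ) (b : Fin 4 → Fin n) : ℚ :=
  ∑ k, P (rkm Q (b 0) (b 1)) k (b 2) * Q k (b 3)

/-- The real extension, for endomorphisms. -/
noncomputable def extE (P : Matrix (Fin n) (Fin n) ℚ →ₗ[ℚ] Matrix (Fin n) (Fin n) ℚ) :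
    End ℝ (Fin n → ℝ) →ₗ[ℝ] End ℝ (Fin n → ℝ) :=
  Matrix.toLin'.toLinearMap ∘ₗ ext P ∘ₗ LinearMap.toMatrix'.toLinearMap

theorem extE_apply (P : Matrix (Fin n) (Fin n) ℚ →ₗ[ℚ] Matrix (Fin n) (Fin n) ℚ)
    (B : End ℝ (Fin n → ℝ)) : extE P B = Matrix.toLin' (ext P (LinearMap.toMatrix' B)) := rfl

theorem quartic_fm (Q : Matrix (Fin n) (Fin n) ℚ)
    (P : Matrix (Fin n) (Fin n) ℚ →ₗ[ℚ] Matrix (Fin n) (Fin n) ℚ) :
    fm (fun b => (quartic Q P b : ℝ)) = (quart (bq Q) (extE P) : Fm ℝ (Fin n → ℝ) 4) := by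
  refine fm_ext fun b => ?_
  rw [cf_fm]
  change _ = quart (bq Q) (extE P) (fun l => Pi.single (b l) (1 : ℝ))
  rw [quart_apply]
  have h1 : LinearMap.toMatrix' (rk (bq Q) (Pi.single (b 0) (1 : ℝ)) (Pi.single (b 1) (1 : ℝ))) =
      cst ℝ (rkm Q (b 0) (b 1)) := by
    ext k l
    rw [LinearMap.toMatrix'_apply, rk_apply, bq_apply]
    rw [single_one_dotProduct, Pi.smul_apply, smul_eq_mul]
    change (cst ℝ Q *ᵥ Pi.single l 1) (b 1) * _ = ((if k = b 0 then Q (b 1) l else 0 : ℚ) : ℝ)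
    rw [Matrix.mulVec_single_one, Matrix.col_apply]
    by_cases h : k = b 0
    · rw [if_pos h, h, Pi.single_eq_same, mul_one]
      rfl
    · rw [if_neg h, Pi.single_eq_of_ne h, mul_zero, Rat.cast_zero]
  have h2 : extE P (rk (bq Q) (Pi.single (b 0) (1 : ℝ)) (Pi.single (b 1) (1 : ℝ))) =
      Matrix.toLin' (cst ℝ (P (rkm Q (b 0) (b 1)))) := by
    rw [extE_apply, h1, ext_cst]
  rw [h2, bq_apply, Matrix.toLin'_apply, Matrix.mulVec_single_one, Matrix.mulVec_single_one]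
  unfold quartic
  rw [Rat.cast_sum]
  refine Finset.sum_congr rfl fun k _ => ?_
  rw [Rat.cast_mul]
  rfl

theorem kd_quartic {Q : Matrix (Fin n) (Fin n) ℚ} (hQ : IsUnit (cst ℝ Q).det)
    (P : Matrix (Fin n) (Fin n) ℚ →ₗ[ℚ] Matrix (Fin n) (Fin n) ℚ)
    {M : Matrix (Fin n) (Fin n) ℝ} (hM : M.transpose * cst ℝ Q + cst ℝ Q * M = 0) :
    Kd M (fun b => (quartic Q P b : ℝ)) ↔
      ∀ B, ext P (M * B - B * M) = M * ext P B - ext P B * M := by
  obtain ⟨sh, hsh⟩ := bq_sh hQ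
  rw [kd_iff, quartic_fm]
  have h1 : Kil (d := 4) (Matrix.toLin' M) (quart (bq Q) (extE P)) ↔
      CommutesAd (extE P) (Matrix.toLin' M) (Matrix.toLin' M) :=
    quart_kills hsh (bq_nondeg hQ) (bq_skew hM)
  rw [h1]
  constructor
  · intro h B
    have h2 := congrArg LinearMap.toMatrix' (h (Matrix.toLin' B))
    rw [extE_apply] at h2
    rw [LinearMap.toMatrix'_toLin'] at h2
    have h3 : LinearMap.toMatrix' (adE (Matrix.toLin' M) (Matrix.toLin' B)) = M * B - B * M := by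
      rw [adE_apply, map_sub, LinearMap.toMatrix'_mul, LinearMap.toMatrix'_mul,
        LinearMap.toMatrix'_toLin', LinearMap.toMatrix'_toLin']
    rw [h3] at h2
    rw [h2, extE_apply, LinearMap.toMatrix'_toLin', adE_apply, map_sub, LinearMap.toMatrix'_mul,
      LinearMap.toMatrix'_mul, LinearMap.toMatrix'_toLin', LinearMap.toMatrix'_toLin']
  · intro h B
    refine LinearMap.toMatrix'.injective ?_
    have h3 : LinearMap.toMatrix' (adE (Matrix.toLin' M) B) =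
        M * LinearMap.toMatrix' B - LinearMap.toMatrix' B * M := by
      rw [adE_apply, map_sub, LinearMap.toMatrix'_mul, LinearMap.toMatrix'_mul,
        LinearMap.toMatrix'_toLin']
    rw [extE_apply, LinearMap.toMatrix'_toLin', h3, h, extE_apply, adE_apply, map_sub,
      LinearMap.toMatrix'_mul, LinearMap.toMatrix'_mul, LinearMap.toMatrix'_toLin',
      LinearMap.toMatrix'_toLin']

end Pool.Agent.U980.HL
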