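import Mathlib
import Pool.Agent.U980.HL.Quartic

/-!
# Nearby Hodge structures with the same quartic class
-/

set_option autoImplicit false
set_option linter.unusedSectionVars false

namespace Pool.Agent.U980.HL

open Module Pool.Agent.R913.Adj Pool.Agent.U980.MF NormedSpace Matrix Filter Topology
open scoped Matrix.Norms.Operator

variable {n : ℕ}

/-- The intertwining operator. -/
noncomputable def itw (a j : Matrix (Fin n) (Fin n) ℝ) : Matrix (Fin n) (Fin n) ℝ :=
  ∫ θ in (0 : ℝ)..(2 * Real.pi), exp (θ • j) * exp ((-θ) • a)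

theorem itw_cont (a : Matrix (Fin n) (Fin n) ℝ) : Continuous (itw a) := by
  unfold itw
  refine intervalIntegral.continuous_parametric_intervalIntegral_of_continuous' ?_ _ _
  refine Continuous.mul ?_ ?_
  · exact exp_continuous.comp (continuous_snd.smul continuous_fst)
  · exact exp_continuous.comp (continuous_snd.neg.smul continuous_const)

theorem int_cont (a j : Matrix (Fin n) (Fin n) ℝ) :
    Continuous fun θ : ℝ => exp (θ • j) * exp ((-θ) • a) := by
  refine Continuous.mul ?_ ?_
  · exact exp_continuous.comp (continuous_id.smul continuous_const)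
  · exact exp_continuous.comp (continuous_id.neg.smul continuous_const)

theorem itw_self (a : Matrix (Fin n) (Fin n) ℝ) : itw a a = (2 * Real.pi) • 1 := by
  unfold itw
  simp only [exp_mul_neg]
  rw [intervalIntegral.integral_const, sub_zero]

theorem int_left (M : Matrix (Fin n) (Fin n) ℝ) {f : ℝ → Matrix (Fin n) (Fin n) ℝ}
    (hf : Continuous f) (x y : ℝ) : M * ∫ θ in x..y, f θ = ∫ θ in x..y, M * f θ :=
  ((ContinuousLinearMap.mul ℝ (Matrix (Fin n) (Fin n) ℝ) M).intervalIntegral_comp_comm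
    (hf.intervalIntegrable x y)).symm

theorem int_right (M : Matrix (Fin n) (Fin n) ℝ) {f : ℝ → Matrix (Fin n) (Fin n) ℝ}
    (hf : Continuous f) (x y : ℝ) : (∫ θ in x..y, f θ) * M = ∫ θ in x..y, f θ * M :=
  (((ContinuousLinearMap.mul ℝ (Matrix (Fin n) (Fin n) ℝ)).flip M).intervalIntegral_comp_comm
    (hf.intervalIntegrable x y)).symm

theorem itw_comm {a j : Matrix (Fin n) (Fin n) ℝ} (ha : exp ((2 * Real.pi) • a) = 1)
    (hj : exp ((2 * Real.pi) • j) = 1) : j * itw a j = itw a j * a := by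
  have h1 : ∀ θ : ℝ, HasDerivAt (fun θ : ℝ => exp (θ • j) * exp ((-θ) • a))
      (j * (exp (θ • j) * exp ((-θ) • a)) - exp (θ • j) * exp ((-θ) • a) * a) θ := by
    intro θ
    have e1 : HasDerivAt (fun θ : ℝ => exp (θ • j)) (j * exp (θ • j)) θ :=
      hasDerivAt_exp_smul_const' j θ
    have e2 : HasDerivAt (fun θ : ℝ => exp (θ • (-a))) (exp (θ • (-a)) * (-a)) θ :=
      hasDerivAt_exp_smul_const (-a) θ
    have e3 := e1.mul e2
    have e4 : (fun θ : ℝ => exp (θ • j) * exp ((-θ) • a)) =
        (fun θ : ℝ => exp (θ • j)) * fun θ : ℝ => exp (θ • (-a)) := by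
      funext θ
      change _ = exp (θ • j) * exp (θ • (-a))
      rw [smul_neg, neg_smul]
    rw [e4]
    have e5 : j * (exp (θ • j) * exp ((-θ) • a)) - exp (θ • j) * exp ((-θ) • a) * a =
        j * exp (θ • j) * exp (θ • (-a)) + exp (θ • j) * (exp (θ • (-a)) * (-a)) := by
      rw [smul_neg, neg_smul, Matrix.mul_neg, Matrix.mul_neg, ← sub_eq_add_neg]
      simp only [Matrix.mul_assoc]
    rw [e5]
    exact e3
  have hc := int_cont a j
  have h2 := intervalIntegral.integral_eq_sub_of_hasDerivAt (a := 0) (b := 2 * Real.pi)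
    (fun θ _ => h1 θ)
    (((continuous_const.mul hc).sub (hc.mul continuous_const)).intervalIntegrable _ _)
  have h3 : exp ((-(2 * Real.pi)) • a) = 1 := by
    have h4 := exp_mul_neg a (2 * Real.pi)
    rw [ha, Matrix.one_mul] at h4
    exact h4
  have h5 : ∫ θ in (0 : ℝ)..(2 * Real.pi), (j * (exp (θ • j) * exp ((-θ) • a)) -
      exp (θ • j) * exp ((-θ) • a) * a) = j * itw a j - itw a j * a := by
    unfold itw
    rw [int_left j hc, int_right a hc]
    exact intervalIntegral.integral_sub ((continuous_const.mul hc).intervalIntegrable _ _)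
      ((hc.mul continuous_const).intervalIntegrable _ _)
  rw [h5, h3, hj, neg_zero, zero_smul, zero_smul, exp_zero, sub_self, sub_eq_zero] at h2
  exact h2

theorem itw_commute {a j D : Matrix (Fin n) (Fin n) ℝ} (ha : D * a = a * D) (hj : D * j = j * D) :
    D * itw a j = itw a j * D := by
  unfold itw
  have hc := int_cont a j
  rw [int_left D hc, int_right D hc]
  congr 1
  funext θ
  have e1 : Commute D (exp (θ • j)) := by
    have h : Commute D (θ • j) := Commute.smul_right hj θ
    exact h.exp_right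
  have e2 : Commute D (exp ((-θ) • a)) := by
    have h : Commute D ((-θ) • a) := Commute.smul_right ha (-θ)
    exact h.exp_right
  exact (e1.mul_right e2).eq

theorem itw_unit (a : Matrix (Fin n) (Fin n) ℝ) : ∀ᶠ j in 𝓝 a, IsUnit (itw a j).det := by
  have h1 : Continuous fun j => (itw a j).det := Continuous.matrix_det (itw_cont a)
  have h2 : (itw a a).det ≠ 0 := by
    rw [itw_self, Matrix.det_smul, Matrix.det_one, mul_one]
    exact pow_ne_zero _ (by positivity)
  filter_upwards [h1.continuousAt.eventually_ne h2] with j hj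
  exact isUnit_iff_ne_zero.2 hj

variable {j₀ : Matrix (Fin n) (Fin n) ℝ} {Q : Matrix (Fin n) (Fin n) ℚ}

/-- A Hodge structure near an element of the Lie algebra, which commutes with the projection, is
in the Lie algebra. -/
theorem local_mem (h₀ : Polarized Q j₀)
    {P : Matrix (Fin n) (Fin n) ℝ →ₗ[ℝ] Matrix (Fin n) (Fin n) ℝ}
    (hmem : ∀ A, P A ∈ hl ℝ j₀) (hfix : ∀ A ∈ hl ℝ j₀, P A = A)
    (htr : ∀ A, ∀ W ∈ hl ℝ j₀, (P A * W).trace = (A * W).trace)
    {a j : Matrix (Fin n) (Fin n) ℝ} (ha : a ∈ hl ℝ j₀) (hpa : exp ((2 * Real.pi) • a) = 1)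
    (hj : Polarized Q j) (hc : ∀ B, P (j * B - B * j) = j * P B - P B * j)
    (hu : IsUnit (itw a j).det) : j ∈ hl ℝ j₀ := by
  obtain ⟨D, hD⟩ : ∃ D, D = j - P j := ⟨_, rfl⟩
  have hort : ∀ W ∈ hl ℝ j₀, (D * W).trace = 0 := fun W hW => by
    rw [hD, Matrix.sub_mul, Matrix.trace_sub, htr j W hW, sub_self]
  have hjY : ∀ Y ∈ hl ℝ j₀, j * Y - Y * j ∈ hl ℝ j₀ := by
    intro Y hY
    have h1 := hc Y
    rw [hfix Y hY] at h1
    rw [← h1]
    exact hmem _
  have hDY : ∀ Y ∈ hl ℝ j₀, D * Y - Y * D = 0 := by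
    intro Y hY
    have h1 : D * Y - Y * D ∈ hl ℝ j₀ := by
      have e : D * Y - Y * D = (j * Y - Y * j) - (P j * Y - Y * P j) := by
        rw [hD, Matrix.sub_mul, Matrix.mul_sub]
        abel
      rw [e]
      exact (hl ℝ j₀).sub_mem (hjY Y hY) (hl_lie (hmem j) hY)
    refine nondeg_real h₀ h1 fun W hW => ?_
    have h2 := hort _ (hl_lie hY hW)
    rw [Matrix.mul_sub, Matrix.trace_sub] at h2
    rw [Matrix.sub_mul, Matrix.trace_sub, ← h2]
    congr 1
    · rw [Matrix.mul_assoc]
    · rw [Matrix.mul_assoc, Matrix.trace_mul_comm, Matrix.mul_assoc]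
  have hDc : ∀ Y ∈ hl ℝ j₀, D * Y = Y * D := fun Y hY => sub_eq_zero.1 (hDY Y hY)
  have hDj : D * j = j * D := by
    have e : j = D + P j := by rw [hD, sub_add_cancel]
    have h1 := hDc _ (hmem j)
    calc D * j = D * (D + P j) := by rw [← e]
      _ = D * D + D * P j := Matrix.mul_add _ _ _
      _ = D * D + P j * D := by rw [h1]
      _ = (D + P j) * D := (Matrix.add_mul _ _ _).symm
      _ = j * D := by rw [← e]
  have h2 := itw_comm hpa hj.period
  have h3 := itw_commute (hDc a ha) hDj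
  have htjD : (j * D).trace = 0 := by
    have h4 : itw a j * (itw a j)⁻¹ = 1 := Matrix.mul_nonsing_inv _ hu
    have h5 : (itw a j)⁻¹ * itw a j = 1 := Matrix.nonsing_inv_mul _ hu
    have h6 : j * D = itw a j * (a * D) * (itw a j)⁻¹ := by
      calc j * D = j * D * (itw a j * (itw a j)⁻¹) := by rw [h4, Matrix.mul_one]
        _ = j * (D * itw a j) * (itw a j)⁻¹ := by simp only [Matrix.mul_assoc]
        _ = j * itw a j * D * (itw a j)⁻¹ := by rw [h3]; simp only [Matrix.mul_assoc]
        _ = itw a j * (a * D) * (itw a j)⁻¹ := by rw [h2]; simp only [Matrix.mul_assoc]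
    rw [h6, Matrix.trace_mul_comm, ← Matrix.mul_assoc, h5, Matrix.one_mul, Matrix.trace_mul_comm]
    exact hort a ha
  have htDD : (D * D).trace = 0 := by
    have e : D * D = j * D - P j * D := by
      conv_lhs =>
        enter [1]
        rw [hD]
      exact Matrix.sub_mul _ _ _
    rw [e, Matrix.trace_sub, htjD, Matrix.trace_mul_comm, hort _ (hmem j), sub_zero]
  have hskew : D.transpose * cst ℝ Q + cst ℝ Q * D = 0 := by
    have e1 := skew_j hj
    have e2 := hl_skew h₀ (hmem j)
    rw [hD, Matrix.transpose_sub, Matrix.sub_mul, Matrix.mul_sub]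
    have e3 : j.transpose * cst ℝ Q - (P j).transpose * cst ℝ Q +
        (cst ℝ Q * j - cst ℝ Q * P j) = (j.transpose * cst ℝ Q + cst ℝ Q * j) -
        ((P j).transpose * cst ℝ Q + cst ℝ Q * P j) := by abel
    rw [e3, e1, e2, sub_zero]
  have hDC : Commute D (exp ((Real.pi / 2) • j)) := by
    have h : Commute D ((Real.pi / 2) • j) := Commute.smul_right hDj _
    exact h.exp_right
  have hD0 : D = 0 := by
    refine zero_of_adjoint hj.pos (Y := -D) ?_ ?_
    · have e1 : D.transpose * cst ℝ Q = -(cst ℝ Q * D) := eq_neg_of_add_eq_zero_left hskew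
      have e2 : Q.map (Rat.cast : ℚ → ℝ) = cst ℝ Q := rfl
      rw [e2, ← Matrix.mul_assoc, e1, Matrix.mul_neg, Matrix.neg_mul, Matrix.mul_assoc,
        Matrix.mul_assoc, ← hDC.eq]
    · rw [Matrix.mul_neg, Matrix.trace_neg, htDD, neg_zero]
  have e : j = P j := sub_eq_zero.1 (hD ▸ hD0)
  rw [e]
  exact hmem j

end Pool.Agent.U980.HL
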