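import Mathlib
import Pool.Agent.U980.HL.Local

/-!
# CM-points
-/

set_option autoImplicit false
set_option linter.unusedSectionVars false

namespace Pool.Agent.U980.HL

open Module Pool.Agent.R913.Adj Pool.Agent.U980.MF NormedSpace Matrix Filter Topology
open scoped Matrix.Norms.Operator

variable {n : ℕ} {j : Matrix (Fin n) (Fin n) ℝ} {Q : Matrix (Fin n) (Fin n) ℚ}

theorem map_cst (N : Matrix (Fin n) (Fin n) ℚ) : N.map (Rat.cast : ℚ → ℝ) = cst ℝ N := rfl

/-- A matrix which kills the form of a rational matrix commutes with the matrix. -/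
theorem comm_of_kd (hp : Polarized Q j) {N : Matrix (Fin n) (Fin n) ℚ}
    {M : Matrix (Fin n) (Fin n) ℝ} (hM : M.transpose * cst ℝ Q + cst ℝ Q * M = 0)
    (h : Kd (d := 2 * 1) M (bil (cst ℝ (N.transpose * Q)))) : M * cst ℝ N = cst ℝ N * M := by
  rw [kd_bil, cst_mul, cst_transpose] at h
  have h3 : cst ℝ Q * M = -(M.transpose * cst ℝ Q) := by
    rw [eq_neg_iff_add_eq_zero, add_comm]
    exact hM
  rw [Matrix.mul_assoc _ _ M, h3, Matrix.mul_neg, ← Matrix.mul_assoc, ← Matrix.mul_assoc,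
    ← Matrix.transpose_mul, ← Matrix.transpose_mul, ← sub_eq_add_neg, sub_eq_zero] at h
  have h4 := (Matrix.isUnit_iff_isUnit_det _).2 (Q_unit hp ℝ)
  have h5 := h4.mul_right_cancel h
  have h6 := congrArg Matrix.transpose h5
  rw [Matrix.transpose_transpose, Matrix.transpose_transpose] at h6
  exact h6.symm

theorem comm_span {R : Set (Matrix (Fin n) (Fin n) ℚ)} {M A : Matrix (Fin n) (Fin n) ℝ}
    (hA : A ∈ Submodule.span ℝ ((fun x : Matrix (Fin n) (Fin n) ℚ =>
      x.map (Rat.cast : ℚ → ℝ)) '' R)) (h : ∀ r ∈ R, M * cst ℝ r = cst ℝ r * M) :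
    M * A = A * M := by
  refine Submodule.span_induction (p := fun A _ => M * A = A * M) ?_ ?_ ?_ ?_ hA
  · rintro _ ⟨r, hr, rfl⟩
    exact h r hr
  · rw [Matrix.mul_zero, Matrix.zero_mul]
  · intro x y _ _ hx hy
    rw [Matrix.mul_add, Matrix.add_mul, hx, hy]
  · intro a x _ hx
    rw [Matrix.mul_smul, Matrix.smul_mul, hx]

/-- Two near commuting Hodge structures are equal. -/
theorem eq_of_comm {a j : Matrix (Fin n) (Fin n) ℝ} (ha : exp ((2 * Real.pi) • a) = 1)
    (hj : exp ((2 * Real.pi) • j) = 1) (h : a * j = j * a) (hu : IsUnit (itw a j).det) :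
    j = a := by
  have h1 := itw_comm ha hj
  have h2 := itw_commute (D := a) rfl h
  rw [← h2] at h1
  exact ((Matrix.isUnit_iff_isUnit_det _).2 hu).mul_right_cancel h1

/-- A CM-point is isolated among the Hodge structures which keep its Hodge forms of degree two. -/
theorem isolated_two (hp : Polarized Q j) (hcm : IsCM j) :
    Isolated Q j (fun j' => ∀ t : (Fin 2 → Fin n) → ℚ, IsHodge j t → IsHodge j' t) := by
  obtain ⟨R, hR, hj⟩ := hcm
  refine ⟨_, itw_unit j, fun j' hu hp' h2 => ?_⟩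
  have hjr : ∀ r ∈ R, j * cst ℝ r = cst ℝ r * j := by
    intro r hr
    have h3 := comm_span (M := cst ℝ r) hj fun r' hr' => by
      rw [← cst_mul, ← cst_mul, hR r hr r' hr']
    exact h3.symm
  have hj'r : ∀ r ∈ R, j' * cst ℝ r = cst ℝ r * j' := by
    intro r hr
    refine comm_of_kd hp (skew_j hp') ?_
    have h0 : IsHodge (d := 2 * 1) j (bil (r.transpose * Q)) := by
      refine hodge_bil ?_
      rw [cst_mul, cst_transpose, ← Matrix.mul_assoc, ← Matrix.transpose_mul, ← hjr r hr,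
        Matrix.transpose_mul, Matrix.mul_assoc, Matrix.mul_assoc, ← Matrix.mul_add, skew_j hp,
        Matrix.mul_zero]
    have h3 := (isHodge_iff j' _).1 (h2 _ h0)
    exact h3
  have h4 : j' * j = j * j' := comm_span hj hj'r
  exact eq_of_comm hp.period hp'.period h4.symm hu

theorem fnl_mul_cst (f : ℝ →ₗ[ℚ] ℚ) (M : Matrix (Fin n) (Fin n) ℝ)
    (N : Matrix (Fin n) (Fin n) ℚ) : fnl f (M * cst ℝ N) = fnl f M * N := by
  ext a b
  change f ((M * cst ℝ N) a b) = _
  rw [Matrix.mul_apply, Matrix.mul_apply, map_sum]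
  exact Finset.sum_congr rfl fun k _ => dual_mul' f _ _

theorem fnl_cst_mul (f : ℝ →ₗ[ℚ] ℚ) (M : Matrix (Fin n) (Fin n) ℝ)
    (N : Matrix (Fin n) (Fin n) ℚ) : fnl f (cst ℝ N * M) = N * fnl f M := by
  ext a b
  change f ((cst ℝ N * M) a b) = _
  rw [Matrix.mul_apply, Matrix.mul_apply, map_sum]
  exact Finset.sum_congr rfl fun k _ => dual_mul f _ _

theorem exp_conj_smul (j X : Matrix (Fin n) (Fin n) ℝ) (s θ : ℝ) :
    exp (θ • (exp (s • X) * j * exp ((-s) • X))) =
      exp (s • X) * exp (θ • j) * exp ((-s) • X) := by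
  have hu : IsUnit (exp (s • X)) := Matrix.isUnit_exp _
  have hinv : (exp (s • X))⁻¹ = exp ((-s) • X) := by
    rw [neg_smul, Matrix.exp_neg]
  rw [← hinv, ← Matrix.exp_conj _ _ hu]
  congr 1
  rw [Matrix.mul_smul, Matrix.smul_mul]

theorem Q_exp (hp : Polarized Q j) {X : Matrix (Fin n) (Fin n) ℝ} (hX : X ∈ hl ℝ j) (s : ℝ) :
    cst ℝ Q * exp (s • X) = (exp ((-s) • X)).transpose * cst ℝ Q := by
  have hQ := Q_unit hp ℝ
  have hu : IsUnit (cst ℝ Q) := (Matrix.isUnit_iff_isUnit_det _).2 hQ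
  have h1 := hl_skew' hp hX
  have h2 : cst ℝ Q * (s • X) * (cst ℝ Q)⁻¹ = ((-s) • X).transpose := by
    rw [Matrix.mul_smul, h1, Matrix.smul_mul, Matrix.neg_mul, Matrix.mul_assoc,
      Matrix.mul_nonsing_inv _ hQ, Matrix.mul_one, Matrix.transpose_smul, smul_neg, neg_smul]
  have h3 := Matrix.exp_conj (cst ℝ Q) (s • X) hu
  rw [h2, Matrix.exp_transpose] at h3
  rw [h3, Matrix.mul_assoc, Matrix.nonsing_inv_mul _ hQ, Matrix.mul_one]

/-- The conjugates by the group are polarized. -/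
theorem conj_polarized (hp : Polarized Q j) {X : Matrix (Fin n) (Fin n) ℝ} (hX : X ∈ hl ℝ j)
    (s : ℝ) : Polarized Q (exp (s • X) * j * exp ((-s) • X)) where
  period := by
    rw [exp_conj_smul, hp.period, Matrix.mul_one, exp_mul_neg]
  skew := by
    have h1 := hodge_conj hX j_mem (hodge_bil (skew_j hp)) s
    exact (kd_bil _ _).1 ((isHodge_iff _ _).1 h1)
  pos := by
    have hB : Function.Injective (exp ((-s) • X)).mulVec :=
      Matrix.mulVec_injective_iff_isUnit.2 (Matrix.isUnit_exp _)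
    have h1 := hp.pos.conjTranspose_mul_mul_same hB
    rw [Matrix.conjTranspose_eq_transpose_of_trivial] at h1
    rw [map_cst] at h1 ⊢
    have h2 : cst ℝ Q * exp ((Real.pi / 2) • (exp (s • X) * j * exp ((-s) • X))) =
        (exp ((-s) • X)).transpose * (cst ℝ Q * exp ((Real.pi / 2) • j)) * exp ((-s) • X) := by
      rw [exp_conj_smul, ← Matrix.mul_assoc, ← Matrix.mul_assoc, Q_exp hp hX]
      simp only [Matrix.mul_assoc]
    rw [h2]
    exact h1

/-- An isolated Hodge structure commutes with the Lie algebra. -/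
theorem comm_of_isolated (hp : Polarized Q j) (h : Isolated Q j (Keeps j))
    {X : Matrix (Fin n) (Fin n) ℝ} (hX : X ∈ hl ℝ j) : X * j = j * X := by
  obtain ⟨U, hU, hU'⟩ := h
  have hd : HasDerivAt (fun s : ℝ => exp (s • X) * j * exp ((-s) • X)) (X * j - j * X) 0 := by
    have e1 : HasDerivAt (fun θ : ℝ => exp (θ • X)) (X * exp ((0 : ℝ) • X)) 0 :=
      hasDerivAt_exp_smul_const' X 0
    have e2 : HasDerivAt (fun θ : ℝ => exp (θ • (-X))) (exp ((0 : ℝ) • (-X)) * (-X)) 0 :=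
      hasDerivAt_exp_smul_const (-X) 0
    have e3 := (e1.mul_const j).mul e2
    simp only [zero_smul, exp_zero, Matrix.mul_one, Matrix.one_mul, Matrix.mul_neg] at e3
    have e4 : (fun s : ℝ => exp (s • X) * j * exp ((-s) • X)) =
        (fun s : ℝ => exp (s • X) * j) * fun s : ℝ => exp (s • (-X)) := by
      funext θ
      change _ = exp (θ • X) * j * exp (θ • (-X))
      rw [smul_neg, neg_smul]
    rw [e4, sub_eq_add_neg]
    exact e3
  have h0 : exp ((0 : ℝ) • X) * j * exp ((-(0 : ℝ)) • X) = j := by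
    rw [neg_zero, zero_smul, exp_zero, Matrix.one_mul, Matrix.mul_one]
  have h1 : ∀ᶠ s in 𝓝 (0 : ℝ), exp (s • X) * j * exp ((-s) • X) ∈ U := by
    refine hd.continuousAt.eventually ?_
    change U ∈ 𝓝 (exp ((0 : ℝ) • X) * j * exp ((-(0 : ℝ)) • X))
    rw [h0]
    exact hU
  have h2 : (fun s : ℝ => exp (s • X) * j * exp ((-s) • X)) =ᶠ[𝓝 0] fun _ => j := by
    filter_upwards [h1] with s hs
    exact hU' _ hs (conj_polarized hp hX s) fun d t ht => hodge_conj hX j_mem ht s
  have h3 := (h2.hasDerivAt_iff).1 hd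
  exact sub_eq_zero.1 (h3.unique (hasDerivAt_const _ _))

theorem cm_of_isolated (hp : Polarized Q j) (h : Isolated Q j (Keeps j)) : IsCM j := by
  refine ⟨{N | N ∈ hl ℚ j ∧ ∀ N' ∈ hl ℚ j, N * N' = N' * N}, fun x hx y hy => hx.2 y hy.1, ?_⟩
  obtain ⟨s, f, hs⟩ := sum_basis j
  rw [hs]
  refine Submodule.sum_mem _ fun i _ => Submodule.smul_mem _ _ (Submodule.subset_span ?_)
  rw [← hs]
  refine ⟨fnl (f i) j, ⟨hl_fnl j_mem _, fun N hN => ?_⟩, rfl⟩
  rw [← fnl_mul_cst, ← fnl_cst_mul, comm_of_isolated hp h (hl_cst hN)]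

end Pool.Agent.U980.HL
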