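import Mathlib
import Pool.Agent.U980.HL.CM

/-!
# CM-points and one class of degree two
-/

set_option autoImplicit false
set_option linter.unusedSectionVars false

namespace Pool.Agent.U980.HL

open Module Pool.Agent.R913.Adj Pool.Agent.U980.MF NormedSpace Matrix Filter Topology
open scoped Matrix.Norms.Operator

variable {n : ℕ} {j : Matrix (Fin n) (Fin n) ℝ} {Q : Matrix (Fin n) (Fin n) ℚ}

section abstract

variable {A : Type} [NormedRing A] [NormedAlgebra ℝ A] [NormedAlgebra ℚ A] [CompleteSpace A]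

/-- The average over the circle. -/
noncomputable def avg (δ : A) : A →L[ℝ] A :=
  ∫ θ in (0 : ℝ)..(2 * Real.pi), ContinuousLinearMap.mulLeftRight ℝ A
    (exp (θ • δ)) (exp ((-θ) • δ))

theorem avg_cont : Continuous (avg (A := A)) := by
  unfold avg
  refine intervalIntegral.continuous_parametric_intervalIntegral_of_continuous' ?_ _ _
  refine Continuous.clm_apply ?_ ?_
  · exact (ContinuousLinearMap.continuous _).comp
      (exp_continuous.comp (continuous_snd.smul continuous_fst))
  · exact exp_continuous.comp (continuous_snd.neg.smul continuous_fst)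

theorem avg_zero : avg (0 : A) = (2 * Real.pi) • 1 := by
  unfold avg
  have h : ∀ θ : ℝ, ContinuousLinearMap.mulLeftRight ℝ A
      (exp (θ • (0 : A))) (exp ((-θ) • (0 : A))) = 1 := by
    intro θ
    refine ContinuousLinearMap.ext fun N => ?_
    rw [ContinuousLinearMap.mulLeftRight_apply, smul_zero, smul_zero, exp_zero, one_mul, mul_one]
    rfl
  simp only [h]
  rw [intervalIntegral.integral_const, sub_zero]

theorem avg_unit : ∀ᶠ δ in 𝓝 (0 : A), IsUnit (avg δ) := by
  have h1 : IsUnit (avg (0 : A)) := by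
    rw [avg_zero, ← Algebra.algebraMap_eq_smul_one]
    exact (IsUnit.mk0 (2 * Real.pi) (by positivity)).map (algebraMap ℝ (A →L[ℝ] A))
  exact avg_cont.continuousAt.eventually (Units.isOpen.mem_nhds h1)

/-- The elements which commute with an element near `j` commute with `j`. -/
theorem cent_abs {j : A} (hj : exp ((2 * Real.pi) • j) = 1) {r M : A}
    (hu : IsUnit (avg (j - r))) (hr : r * j = j * r) (hM : M * r = r * M) : M * j = j * M := by
  obtain ⟨δ, hδ⟩ : ∃ δ, δ = j - r := ⟨_, rfl⟩
  rw [← hδ] at hu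
  have hN : δ * M - M * δ = j * M - M * j := by
    rw [hδ, sub_mul, mul_sub, hM]
    abel
  have h1 : ∀ θ : ℝ, HasDerivAt (fun θ : ℝ => exp (θ • δ) * M * exp (θ • (-δ)))
      (exp (θ • δ) * (δ * M - M * δ) * exp (θ • (-δ))) θ := by
    intro θ
    have e1 : HasDerivAt (fun θ : ℝ => exp (θ • δ)) (exp (θ • δ) * δ) θ :=
      hasDerivAt_exp_smul_const δ θ
    have e2 : HasDerivAt (fun θ : ℝ => exp (θ • (-δ))) ((-δ) * exp (θ • (-δ))) θ :=
      hasDerivAt_exp_smul_const' (-δ) θ
    have e3 := (e1.mul_const M).mul e2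
    have e5 : exp (θ • δ) * (δ * M - M * δ) * exp (θ • (-δ)) =
        exp (θ • δ) * δ * M * exp (θ • (-δ)) + exp (θ • δ) * M * ((-δ) * exp (θ • (-δ))) := by
      noncomm_ring
    rw [e5]
    exact e3
  have hc : Continuous fun θ : ℝ => exp (θ • δ) * (δ * M - M * δ) * exp (θ • (-δ)) := by
    refine Continuous.mul (Continuous.mul ?_ continuous_const) ?_
    · exact exp_continuous.comp (continuous_id.smul continuous_const)
    · exact exp_continuous.comp (continuous_id.smul continuous_const)
  have h2 := intervalIntegral.integral_eq_sub_of_hasDerivAt (a := 0) (b := 2 * Real.pi)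
    (fun θ _ => h1 θ) (hc.intervalIntegrable _ _)
  have hrj : Commute r j := hr
  have hrM : Commute r M := hM.symm
  have h3 : exp ((2 * Real.pi) • δ) = exp ((2 * Real.pi) • (-r)) := by
    have e1 : (2 * Real.pi) • δ = (2 * Real.pi) • j + (2 * Real.pi) • (-r) := by
      rw [hδ, ← smul_add, ← sub_eq_add_neg]
    have e2 : Commute ((2 * Real.pi) • j) ((2 * Real.pi) • (-r)) :=
      ((hrj.symm.neg_right).smul_left _).smul_right _
    rw [e1, exp_add_of_commute e2, hj, one_mul]
  have hinv : exp ((2 * Real.pi) • δ) * exp ((2 * Real.pi) • (-δ)) = 1 := by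
    have e2 : Commute ((2 * Real.pi) • δ) ((2 * Real.pi) • (-δ)) :=
      (((Commute.refl δ).neg_right).smul_left _).smul_right _
    rw [← exp_add_of_commute e2, ← smul_add, add_neg_cancel, smul_zero, exp_zero]
  have h4 : exp ((2 * Real.pi) • δ) * M * exp ((2 * Real.pi) • (-δ)) = M := by
    have e1 : Commute (exp ((2 * Real.pi) • δ)) M := by
      rw [h3]
      exact ((hrM.neg_left).smul_left _).exp_left
    rw [e1.eq, mul_assoc, hinv, mul_one]
  have h6 : exp ((0 : ℝ) • δ) * M * exp ((0 : ℝ) • (-δ)) = M := by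
    rw [zero_smul, zero_smul, exp_zero, one_mul, mul_one]
  rw [h4, h6, sub_self] at h2
  have h7 : avg δ (δ * M - M * δ) = 0 := by
    rw [← h2]
    unfold avg
    have hc2 : Continuous fun θ : ℝ => ContinuousLinearMap.mulLeftRight ℝ
        A (exp (θ • δ)) (exp ((-θ) • δ)) := by
      refine Continuous.clm_apply ?_ ?_
      · exact (ContinuousLinearMap.continuous _).comp
          (exp_continuous.comp (continuous_id.smul continuous_const))
      · exact exp_continuous.comp (continuous_id.neg.smul continuous_const)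
    rw [ContinuousLinearMap.intervalIntegral_apply (hc2.intervalIntegrable _ _)]
    congr 1
    funext θ
    rw [ContinuousLinearMap.mulLeftRight_apply, neg_smul, ← smul_neg]
  obtain ⟨u, hu⟩ := hu
  have h8 : δ * M - M * δ = 0 := by
    have e1 : ((u⁻¹ : (A →L[ℝ] A)ˣ) : A →L[ℝ] A) (avg δ (δ * M - M * δ)) =
        δ * M - M * δ := by
      rw [← hu, ← mul_apply_eq_comp, Units.inv_mul]
      rfl
    rw [← e1, h7, map_zero]
  rw [hN, sub_eq_zero] at h8
  exact h8.symm

theorem cent_ev {j : A} (hj : exp ((2 * Real.pi) • j) = 1) :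
    ∀ᶠ r in 𝓝 j, r * j = j * r → ∀ M, M * r = r * M → M * j = j * M := by
  have h2 : Tendsto (fun r => j - r) (𝓝 j) (𝓝 0) := by
    have h3 : ContinuousAt (fun r : A => j - r) j :=
      (continuous_const.sub continuous_id).continuousAt
    have h4 := h3.tendsto
    rwa [sub_self] at h4
  filter_upwards [h2.eventually avg_unit] with r hu hr M hM
  exact cent_abs hj hu hr hM

end abstract

theorem cent (hj : exp ((2 * Real.pi) • j) = 1) :
    ∀ᶠ r in 𝓝 j, r * j = j * r → ∀ M, M * r = r * M → M * j = j * M :=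
  cent_ev (A := Matrix (Fin n) (Fin n) ℝ) hj

/-- The rational matrices which commute with `R` come arbitrarily near to the real span. -/
theorem near_rat {R : Set (Matrix (Fin n) (Fin n) ℚ)} (hR : ∀ x ∈ R, ∀ y ∈ R, x * y = y * x)
    {A : Matrix (Fin n) (Fin n) ℝ}
    (hA : A ∈ Submodule.span ℝ ((fun x : Matrix (Fin n) (Fin n) ℚ =>
      x.map (Rat.cast : ℚ → ℝ)) '' R)) :
    A ∈ closure (cst ℝ '' {N : Matrix (Fin n) (Fin n) ℚ | ∀ x ∈ R, N * x = x * N}) := by
  refine Submodule.span_induction (p := fun A _ => A ∈ closure (cst ℝ ''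
    {N : Matrix (Fin n) (Fin n) ℚ | ∀ x ∈ R, N * x = x * N})) ?_ ?_ ?_ ?_ hA
  · rintro _ ⟨r, hr, rfl⟩
    exact subset_closure ⟨r, fun x hx => hR r hr x hx, rfl⟩
  · refine subset_closure ⟨0, fun x _ => by rw [Matrix.zero_mul, Matrix.mul_zero], ?_⟩
    ext a b
    exact Rat.cast_zero
  · intro x y _ _ hx hy
    refine map_mem_closure₂ continuous_add hx hy ?_
    rintro _ ⟨a, ha, rfl⟩ _ ⟨b, hb, rfl⟩
    refine ⟨a + b, fun x hx => by rw [Matrix.add_mul, Matrix.mul_add, ha x hx, hb x hx], ?_⟩
    ext k l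
    exact Rat.cast_add _ _
  · intro c x _ hx
    have hc : c ∈ closure (Set.range (Rat.cast : ℚ → ℝ)) := Rat.denseRange_cast c
    refine map_mem_closure₂ continuous_smul hc hx ?_
    rintro _ ⟨q, rfl⟩ _ ⟨b, hb, rfl⟩
    refine ⟨q • b, fun x hx => by rw [Matrix.smul_mul, Matrix.mul_smul, hb x hx], ?_⟩
    ext k l
    exact Rat.cast_mul _ _

/-- A CM-point is isolated in the Hodge locus of one class of degree two. -/
theorem isolated_one (hp : Polarized Q j) (hcm : IsCM j) :
    ∃ c : (Fin 2 → Fin n) → ℚ, IsHodge j c ∧ Isolated Q j (fun j' => IsHodge j' c) := by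
  obtain ⟨R, hR, hj⟩ := hcm
  obtain ⟨_, hu, ⟨N, hN, rfl⟩⟩ := mem_closure_iff_nhds.1 (near_rat hR hj) _ (cent hp.period)
  have hNj : cst ℝ N * j = j * cst ℝ N := comm_span hj fun r hr => by
    rw [← cst_mul, ← cst_mul, hN r hr]
  have h0 : IsHodge (d := 2 * 1) j (bil (N.transpose * Q)) := by
    refine hodge_bil ?_
    rw [cst_mul, cst_transpose, ← Matrix.mul_assoc, ← Matrix.transpose_mul, hNj,
      Matrix.transpose_mul, Matrix.mul_assoc, Matrix.mul_assoc, ← Matrix.mul_add, skew_j hp,
      Matrix.mul_zero]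
  refine ⟨_, h0, _, itw_unit j, fun j' hu' hp' h2 => ?_⟩
  have h3 : j' * cst ℝ N = cst ℝ N * j' := comm_of_kd hp (skew_j hp') ((isHodge_iff j' _).1 h2)
  exact eq_of_comm hp.period hp'.period (hu hNj _ h3).symm hu'

end Pool.Agent.U980.HL
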