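import Mathlib
import Pool.Agent.U980.HL.Two

/-!
# One class of degree four cuts out the special locus
-/

set_option autoImplicit false
set_option linter.unusedSectionVars false

namespace Pool.Agent.U980.HL

open Module Pool.Agent.R913.Adj Pool.Agent.U980.MF NormedSpace Matrix Filter Topology

variable {n : ℕ} {j : Matrix (Fin n) (Fin n) ℝ} {Q : Matrix (Fin n) (Fin n) ℚ}

theorem keeps_iff (a : Matrix (Fin n) (Fin n) ℝ) : Keeps j a ↔ a ∈ hl ℝ j := by
  constructor
  · intro h d t ht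
    exact (isHodge_iff a t).1 (h d t ht)
  · intro h d t ht
    exact hodge_of_hl h ht

/-- The quartic class. -/
theorem exists_quartic (hp : Polarized Q j) : ∃ c : (Fin 4 → Fin n) → ℚ, IsHodge j c ∧
    ∀ a, Polarized Q a → Keeps j a → ∀ᶠ j' in 𝓝 a, Polarized Q j' → IsHodge j' c →
      Keeps j j' := by
  obtain ⟨P, h1, h2, h3⟩ := exists_real hp
  have hQ := Q_unit hp ℝ
  refine ⟨quartic Q P, ?_, ?_⟩
  · rw [isHodge_iff, kd_quartic hQ P (skew_j hp)]
    intro B
    have hPc : ∀ A ∈ hl ℝ j, ∀ B', ext P (A * B' - B' * A) = A * ext P B' - ext P B' * A := by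
      intro A hA B'
      have h4 : ext P (A * B' - B' * A) - (A * ext P B' - ext P B' * A) ∈ hl ℝ j :=
        (hl ℝ j).sub_mem (h1 _) (hl_lie hA (h1 _))
      rw [← sub_eq_zero]
      refine nondeg_real hp h4 fun W hW => ?_
      have e1 := h3 (A * B' - B' * A) W hW
      have e2 := h3 B' _ (hl_lie hW hA)
      rw [Matrix.sub_mul, Matrix.trace_sub, e1]
      have e3 : ((A * B' - B' * A) * W).trace = (B' * (W * A - A * W)).trace := by
        rw [Matrix.sub_mul, Matrix.mul_sub, Matrix.trace_sub, Matrix.trace_sub]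
        congr 1
        · rw [Matrix.mul_assoc, Matrix.trace_mul_comm, Matrix.mul_assoc]
        · rw [Matrix.mul_assoc]
      have e4 : ((A * ext P B' - ext P B' * A) * W).trace =
          (ext P B' * (W * A - A * W)).trace := by
        rw [Matrix.sub_mul, Matrix.mul_sub, Matrix.trace_sub, Matrix.trace_sub]
        congr 1
        · rw [Matrix.mul_assoc, Matrix.trace_mul_comm, Matrix.mul_assoc]
        · rw [Matrix.mul_assoc]
      rw [e3, e4, e2, sub_self]
    exact hPc j j_mem B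
  · intro a ha hk
    filter_upwards [itw_unit a] with j' hu hp' hc
    rw [isHodge_iff, kd_quartic hQ P (skew_j hp')] at hc
    exact (keeps_iff j').2 (local_mem hp h1 h2 h3 ((keeps_iff a).1 hk) ha.period hp' hc hu)

theorem keeps_closed : IsClosed {a : Matrix (Fin n) (Fin n) ℝ | Keeps j a} := by
  have h1 : {a : Matrix (Fin n) (Fin n) ℝ | Keeps j a} = (hl ℝ j : Set _) := by
    ext a
    exact keeps_iff a
  rw [h1]
  exact Submodule.closed_of_finiteDimensional _

/-- The global form. -/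
theorem family {c : (Fin 4 → Fin n) → ℚ}
    (hc : ∀ a, Polarized Q a → Keeps j a → ∀ᶠ j' in 𝓝 a, Polarized Q j' → IsHodge j' c →
      Keeps j j') {S : Type} [TopologicalSpace S] [PreconnectedSpace S]
    {φ : S → Matrix (Fin n) (Fin n) ℝ} (hφ : Continuous φ) (hp : ∀ s, Polarized Q (φ s))
    (hH : ∀ s, IsHodge (φ s) c) (h0 : ∃ s, Keeps j (φ s)) (s : S) : Keeps j (φ s) := by
  have h1 : IsClopen {s | Keeps j (φ s)} := by
    refine ⟨keeps_closed.preimage hφ, isOpen_iff_mem_nhds.2 fun s hs => ?_⟩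
    filter_upwards [hφ.continuousAt.eventually (hc _ (hp s) hs)] with s' hs'
    exact hs' (hp s') (hH s')
  have h2 := h1.eq_univ h0
  exact (Set.eq_univ_iff_forall.1 h2 s)

theorem const_of_isolated {p : Matrix (Fin n) (Fin n) ℝ → Prop} (h : Isolated Q j p)
    {S : Type} [TopologicalSpace S] [PreconnectedSpace S]
    {φ : S → Matrix (Fin n) (Fin n) ℝ} (hφ : Continuous φ) (hp : ∀ s, Polarized Q (φ s))
    (hH : ∀ s, p (φ s)) (h0 : ∃ s, φ s = j) (s : S) : φ s = j := by
  obtain ⟨U, hU, hU'⟩ := h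
  have h1 : IsClopen {s | φ s = j} := by
    refine ⟨isClosed_eq hφ continuous_const, isOpen_iff_mem_nhds.2 fun s hs => ?_⟩
    have hs' : φ s = j := hs
    have h2 : ∀ᶠ s' in 𝓝 s, φ s' ∈ U := hφ.continuousAt.eventually (by rw [hs']; exact hU)
    filter_upwards [h2] with s' h3
    exact hU' _ h3 (hp s') (hH s')
  have h2 := h1.eq_univ h0
  exact (Set.eq_univ_iff_forall.1 h2 s)

theorem cm_tfae (hp : Polarized Q j) : List.TFAE [
    IsCM j,
    ∃ c : (Fin 2 → Fin n) → ℚ, IsHodge j c ∧ Isolated Q j (fun j' => IsHodge j' c),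
    ∃ (d : ℕ) (c : (Fin d → Fin n) → ℚ), IsHodge j c ∧ Isolated Q j (fun j' => IsHodge j' c),
    Isolated Q j (Keeps j)] := by
  tfae_have 1 → 2 := isolated_one hp
  tfae_have 2 → 3 := by
    rintro ⟨c, h1, h2⟩
    exact ⟨2, c, h1, h2⟩
  tfae_have 3 → 4 := by
    rintro ⟨d, c, h1, U, hU, h2⟩
    exact ⟨U, hU, fun j' hj' hp' hk => h2 j' hj' hp' (hk d c h1)⟩
  tfae_have 4 → 1 := cm_of_isolated hp
  tfae_finish

end Pool.Agent.U980.HL
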