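import Mathlib
import Pool.Agent.U980.HL.Main

/-!
# Finitely many Hodge structures are isolated in the Hodge locus of a given class
-/

set_option autoImplicit false
set_option linter.unusedSectionVars false

namespace Pool.Agent.U980.HL

open Module Pool.Agent.R913.Adj Pool.Agent.U980.MF NormedSpace Matrix Filter Topology
open scoped Matrix.Norms.Operator MatrixOrder ComplexOrder

variable {n d : ℕ} {j : Matrix (Fin n) (Fin n) ℝ} {Q : Matrix (Fin n) (Fin n) ℚ}

/-- The conjugate of a Hodge structure by the group of a form. -/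
theorem hodge_conj' {j' X : Matrix (Fin n) (Fin n) ℝ} {t : (Fin d → Fin n) → ℚ}
    (hX : Kd X (fun b => (t b : ℝ))) (hj' : Kd j' (fun b => (t b : ℝ))) (s : ℝ) :
    IsHodge (exp (s • X) * j' * exp ((-s) • X)) t := by
  intro θ v
  rw [exp_conj_smul]
  have h2 : (fun l => (exp (s • X) * exp (θ • j') * exp ((-s) • X)).mulVec (v l)) =
      fun l => (exp (s • X)).mulVec ((exp (θ • j')).mulVec ((exp ((-s) • X)).mulVec (v l))) := by
    funext l
    rw [Matrix.mulVec_mulVec, Matrix.mulVec_mulVec, Matrix.mul_assoc]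
  rw [h2, value_eq, value_eq, fixed_of_kd hX, fixed_of_kd hj', fixed_of_kd hX]

theorem Q_exp' (hp : Polarized Q j) {X : Matrix (Fin n) (Fin n) ℝ}
    (hX : X.transpose * cst ℝ Q + cst ℝ Q * X = 0) (s : ℝ) :
    cst ℝ Q * exp (s • X) = (exp ((-s) • X)).transpose * cst ℝ Q := by
  have hQ := Q_unit hp ℝ
  have hu : IsUnit (cst ℝ Q) := (Matrix.isUnit_iff_isUnit_det _).2 hQ
  have h1 : cst ℝ Q * X = -(X.transpose * cst ℝ Q) := by
    rw [eq_neg_iff_add_eq_zero, add_comm]
    exact hX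
  have h2 : cst ℝ Q * (s • X) * (cst ℝ Q)⁻¹ = ((-s) • X).transpose := by
    rw [Matrix.mul_smul, h1, Matrix.smul_mul, Matrix.neg_mul, Matrix.mul_assoc,
      Matrix.mul_nonsing_inv _ hQ, Matrix.mul_one, Matrix.transpose_smul, smul_neg, neg_smul]
  have h3 := Matrix.exp_conj (cst ℝ Q) (s • X) hu
  rw [h2, Matrix.exp_transpose] at h3
  rw [h3, Matrix.mul_assoc, Matrix.nonsing_inv_mul _ hQ, Matrix.mul_one]

theorem conj_polarized' (hp : Polarized Q j) {X : Matrix (Fin n) (Fin n) ℝ}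
    (hX : X.transpose * cst ℝ Q + cst ℝ Q * X = 0) (s : ℝ) :
    Polarized Q (exp (s • X) * j * exp ((-s) • X)) where
  period := by
    rw [exp_conj_smul, hp.period, Matrix.mul_one, exp_mul_neg]
  skew := by
    have hX' : Kd (d := 2 * 1) X (fun b => ((bil Q b : ℚ) : ℝ)) := by
      rw [bil_cst]
      exact (kd_bil _ _).2 hX
    have hj' : Kd (d := 2 * 1) j (fun b => ((bil Q b : ℚ) : ℝ)) := by
      rw [bil_cst]
      exact (kd_bil _ _).2 (skew_j hp)
    have h1 := hodge_conj' hX' hj' s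
    exact (kd_bil _ _).1 ((isHodge_iff _ _).1 h1)
  pos := by
    have hB : Function.Injective (exp ((-s) • X)).mulVec :=
      Matrix.mulVec_injective_iff_isUnit.2 (Matrix.isUnit_exp _)
    have h1 := hp.pos.conjTranspose_mul_mul_same hB
    rw [Matrix.conjTranspose_eq_transpose_of_trivial] at h1
    rw [map_cst] at h1 ⊢
    have h2 : cst ℝ Q * exp ((Real.pi / 2) • (exp (s • X) * j * exp ((-s) • X))) =
        (exp ((-s) • X)).transpose * (cst ℝ Q * exp ((Real.pi / 2) • j)) * exp ((-s) • X) := by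
      rw [exp_conj_smul, ← Matrix.mul_assoc, ← Matrix.mul_assoc, Q_exp' hp hX]
      simp only [Matrix.mul_assoc]
    rw [h2]
    exact h1

/-- A Hodge structure isolated in the locus of `c` commutes with the Lie algebra of `c`. -/
theorem comm_of_isol (hp : Polarized Q j) {c : (Fin d → Fin n) → ℚ} (hc : IsHodge j c)
    (h : Isolated Q j (fun j' => IsHodge j' c)) {X : Matrix (Fin n) (Fin n) ℝ}
    (hX : X.transpose * cst ℝ Q + cst ℝ Q * X = 0) (hXc : Kd X (fun b => (c b : ℝ))) :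
    X * j = j * X := by
  obtain ⟨U, hU, hU'⟩ := h
  have hd : HasDerivAt (fun s : ℝ => exp (s • X) * j * exp ((-s) • X)) (X * j - j * X) 0 := by
    have e1 : HasDerivAt (fun θ : ℝ => exp (θ • X)) (X * exp ((0 : ℝ) • X)) 0 :=
      hasDerivAt_exp_smul_const' X 0
    have e2 : HasDerivAt (fun θ : ℝ => exp (θ • (-X))) (exp ((0 : ℝ) • (-X)) * (-X)) 0 :=
      hasDerivAt_exp_smul_const (-X) 0
    have e3 := (e1.mul_const j).mul e2
    simp only [zero_smul, exp_zero, Matrix.mul_one, Matrix.one_mul, Matrix.mul_neg] at e3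
    have e4 : (fun s : ℝ => exp (s • X) * j * exp ((-s) • X)) =
        (fun s : ℝ => exp (s • X) * j) * fun s : ℝ => exp (s • (-X)) := by
      funext θ
      change _ = exp (θ • X) * j * exp (θ • (-X))
      rw [smul_neg, neg_smul]
    rw [e4, sub_eq_add_neg]
    exact e3
  have h0 : exp ((0 : ℝ) • X) * j * exp ((-(0 : ℝ)) • X) = j := by
    rw [neg_zero, zero_smul, exp_zero, Matrix.one_mul, Matrix.mul_one]
  have h1 : ∀ᶠ s in 𝓝 (0 : ℝ), exp (s • X) * j * exp ((-s) • X) ∈ U := by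
    refine hd.continuousAt.eventually ?_
    change U ∈ 𝓝 (exp ((0 : ℝ) • X) * j * exp ((-(0 : ℝ)) • X))
    rw [h0]
    exact hU
  have h2 : (fun s : ℝ => exp (s • X) * j * exp ((-s) • X)) =ᶠ[𝓝 0] fun _ => j := by
    filter_upwards [h1] with s hs
    exact hU' _ hs (conj_polarized' hp hX s) (hodge_conj' hXc ((isHodge_iff j c).1 hc) s)
  have h3 := (h2.hasDerivAt_iff).1 hd
  exact sub_eq_zero.1 (h3.unique (hasDerivAt_const _ _))

/-- Uniform discreteness of the commuting periods. -/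
theorem exists_sep : ∃ ε > 0, ∀ a j : Matrix (Fin n) (Fin n) ℝ, exp ((2 * Real.pi) • a) = 1 →
    exp ((2 * Real.pi) • j) = 1 → a * j = j * a → dist j a < ε → j = a := by
  obtain ⟨ε, hε, h⟩ := Metric.eventually_nhds_iff.1 (itw_unit (0 : Matrix (Fin n) (Fin n) ℝ))
  refine ⟨ε, hε, fun a j ha hj hc hd => ?_⟩
  have h1 : dist (j - a) 0 < ε := by rwa [dist_zero_right, ← dist_eq_norm]
  have h2 := h h1
  have hcom : Commute ((2 * Real.pi) • j) ((2 * Real.pi) • (-a)) := by
    have h3 : Commute j a := hc.symm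
    exact ((h3.neg_right).smul_left _).smul_right _
  have hna : exp ((2 * Real.pi) • (-a)) = 1 := by
    have h3 := exp_neg_mul a (2 * Real.pi)
    rw [ha, Matrix.mul_one, neg_smul, ← smul_neg] at h3
    exact h3
  have h4 : exp ((2 * Real.pi) • (j - a)) = 1 := by
    rw [sub_eq_add_neg, smul_add, Matrix.exp_add_of_commute _ _ hcom, hj, hna, Matrix.mul_one]
  have h5 := eq_of_comm (a := (0 : Matrix (Fin n) (Fin n) ℝ)) (by rw [smul_zero, exp_zero]) h4
    (by rw [Matrix.zero_mul, Matrix.mul_zero]) h2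
  exact sub_eq_zero.1 h5

theorem exists_frame {S : Matrix (Fin n) (Fin n) ℝ} (hS : S.PosDef) :
    ∃ B : Matrix (Fin n) (Fin n) ℝ, IsUnit B.det ∧ ∀ M Y : Matrix (Fin n) (Fin n) ℝ,
      S * Y = M.transpose * S → (B * M * B⁻¹).transpose = B * Y * B⁻¹ := by
  obtain ⟨B, hB⟩ := CStarAlgebra.nonneg_iff_eq_star_mul_self.mp hS.posSemidef.nonneg
  have hB' : S = B.transpose * B := by
    rw [hB]
    rfl
  have hdet : IsUnit B.det := by
    have h1 := hS.det_pos
    rw [hB', Matrix.det_mul, Matrix.det_transpose] at h1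
    rw [isUnit_iff_ne_zero]
    intro h0
    rw [h0, mul_zero] at h1
    exact lt_irrefl _ h1
  refine ⟨B, hdet, fun M Y h => ?_⟩
  have h1 : B * B⁻¹ = 1 := Matrix.mul_nonsing_inv B hdet
  have h2 : B⁻¹ * B = 1 := Matrix.nonsing_inv_mul B hdet
  have h4 : B.transpose * (B * Y) = B.transpose * (B⁻¹.transpose * (M.transpose * S)) := by
    rw [← Matrix.mul_assoc, ← hB', h, ← Matrix.mul_assoc B.transpose, ← Matrix.transpose_mul,
      h2, Matrix.transpose_one, Matrix.one_mul]
  have h5 : B * Y = B⁻¹.transpose * (M.transpose * S) := by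
    have h6 : IsUnit B.transpose := by
      rw [Matrix.isUnit_iff_isUnit_det, Matrix.det_transpose]
      exact hdet
    exact h6.mul_left_cancel h4
  rw [h5, hB', Matrix.transpose_mul, Matrix.transpose_mul]
  simp only [Matrix.mul_assoc]
  rw [h1, Matrix.mul_one]

/-- A separated set of matrices with bounded entries is finite. -/
theorem finite_of_sep {T : Set (Matrix (Fin n) (Fin n) ℝ)} {w ε : ℝ} (hε : 0 < ε)
    (hw : ∀ A ∈ T, ∀ a b, |A a b| ≤ w) (hs : ∀ A ∈ T, ∀ A' ∈ T, dist A A' < ε → A = A') :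
    T.Finite := by
  have hK' : IsCompact (X := Fin n → Fin n → ℝ) {A | ∀ a b, A a b ∈ Set.Icc (-w) w} := by
    have h : IsCompact (Set.univ.pi fun _ : Fin n => Set.univ.pi fun _ : Fin n =>
        Set.Icc (-w) w) := isCompact_univ_pi fun _ => isCompact_univ_pi fun _ => isCompact_Icc
    convert h using 1
    ext A
    simp only [Set.mem_ofPred_eq, Set.mem_pi, Set.mem_univ, true_implies]
  have hK : IsCompact (X := Matrix (Fin n) (Fin n) ℝ) {A | ∀ a b, A a b ∈ Set.Icc (-w) w} := hK'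
  obtain ⟨t, -, ht, hc⟩ := hK.finite_cover_balls (half_pos hε)
  have hT : ∀ A ∈ T, ∃ x ∈ t, dist A x < ε / 2 := by
    intro A hA
    have h1 : A ∈ {A : Matrix (Fin n) (Fin n) ℝ | ∀ a b, A a b ∈ Set.Icc (-w) w} :=
      fun a b => abs_le.1 (hw A hA a b)
    obtain ⟨x, hx, hx'⟩ := Set.mem_iUnion₂.1 (hc h1)
    exact ⟨x, hx, Metric.mem_ball.1 hx'⟩
  choose! f hf1 hf2 using hT
  refine Set.Finite.of_injOn (f := f) (fun A hA => hf1 A hA) (fun A hA A' hA' h => ?_) ht
  refine hs A hA A' hA' ?_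
  have h1 := hf2 A hA
  have h2 := hf2 A' hA'
  rw [← h] at h2
  calc dist A A' ≤ dist A (f A) + dist A' (f A) := dist_triangle_right _ _ _
    _ < ε := by linarith

/-- Finitely many Hodge structures of bounded level are isolated in the locus of a class. -/
theorem finite_isol (c : (Fin d → Fin n) → ℚ) (W : ℝ) :
    {j : Matrix (Fin n) (Fin n) ℝ | Polarized Q j ∧ -(j * j).trace ≤ W ∧ IsHodge j c ∧
      Isolated Q j (fun j' => IsHodge j' c)}.Finite := by
  obtain ⟨T, hT⟩ : ∃ T : Set (Matrix (Fin n) (Fin n) ℝ), T = {j | Polarized Q j ∧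
    -(j * j).trace ≤ W ∧ IsHodge j c ∧ Isolated Q j (fun j' => IsHodge j' c)} := ⟨_, rfl⟩
  rw [← hT]
  by_cases hne : T = ∅
  · rw [hne]
    exact Set.finite_empty
  obtain ⟨j₁, hj₁⟩ := Set.nonempty_iff_ne_empty.2 hne
  have hm : ∀ j, j ∈ T ↔ Polarized Q j ∧ -(j * j).trace ≤ W ∧ IsHodge j c ∧
      Isolated Q j (fun j' => IsHodge j' c) := fun j => by rw [hT]; rfl
  have hcomm : ∀ a ∈ T, ∀ b ∈ T, a * b = b * a := by
    intro a ha b hb
    obtain ⟨h1, -, h2, -⟩ := (hm a).1 ha
    obtain ⟨h3, -, h4, h5⟩ := (hm b).1 hb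
    exact comm_of_isol h3 h4 h5 (skew_j h1) ((isHodge_iff a c).1 h2)
  obtain ⟨B, hB, hB'⟩ := exists_frame ((hm j₁).1 hj₁).1.pos
  have h1 : B * B⁻¹ = 1 := Matrix.mul_nonsing_inv B hB
  have h2 : B⁻¹ * B = 1 := Matrix.nonsing_inv_mul B hB
  have hBu : IsUnit B := (Matrix.isUnit_iff_isUnit_det _).2 hB
  obtain ⟨ε, hε, hsep⟩ := exists_sep (n := n)
  have hfin : ((fun j => B * j * B⁻¹) '' T).Finite := by
    refine finite_of_sep (w := Real.sqrt W) hε ?_ ?_
    · rintro _ ⟨a, ha, rfl⟩ x y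
      obtain ⟨h3, h4, -, -⟩ := (hm a).1 ha
      have hC : Commute a (exp ((Real.pi / 2) • j₁)) := by
        have h5 : Commute a ((Real.pi / 2) • j₁) := Commute.smul_right (hcomm a ha j₁ hj₁) _
        exact h5.exp_right
      have h5 := hB' a (-a) (by
        have e1 : a.transpose * cst ℝ Q = -(cst ℝ Q * a) :=
          eq_neg_of_add_eq_zero_left (skew_j h3)
        rw [map_cst, ← Matrix.mul_assoc, e1, Matrix.mul_neg, Matrix.neg_mul, Matrix.mul_assoc,
          Matrix.mul_assoc, ← hC.eq])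
      have h6 : ((B * a * B⁻¹).transpose * (B * a * B⁻¹)).trace ≤ W := by
        rw [h5]
        have e1 : B * -a * B⁻¹ * (B * a * B⁻¹) = -(B * (a * a) * B⁻¹) := by
          rw [Matrix.mul_neg, Matrix.neg_mul, Matrix.neg_mul, neg_inj]
          calc B * a * B⁻¹ * (B * a * B⁻¹) = B * a * (B⁻¹ * B) * a * B⁻¹ := by
                simp only [Matrix.mul_assoc]
            _ = B * (a * a) * B⁻¹ := by
                rw [h2, Matrix.mul_one]
                simp only [Matrix.mul_assoc]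
        rw [e1, Matrix.trace_neg, Matrix.trace_mul_comm, ← Matrix.mul_assoc, h2, Matrix.one_mul]
        exact h4
      have h7 : ((B * a * B⁻¹) x y) ^ 2 ≤ W := by
        refine le_trans ?_ h6
        rw [Matrix.trace]
        have h8 : ∀ i, ((B * a * B⁻¹).transpose * (B * a * B⁻¹)).diag i =
            ∑ k, ((B * a * B⁻¹) k i) ^ 2 := by
          intro i
          rw [Matrix.diag_apply, Matrix.mul_apply]
          exact Finset.sum_congr rfl fun k _ => by rw [Matrix.transpose_apply, sq]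
        rw [Finset.sum_congr rfl fun i _ => h8 i]
        refine le_trans ?_ (Finset.single_le_sum (f := fun i => ∑ k, ((B * a * B⁻¹) k i) ^ 2)
          (fun i _ => Finset.sum_nonneg fun k _ => sq_nonneg _) (Finset.mem_univ y))
        exact Finset.single_le_sum (f := fun k => ((B * a * B⁻¹) k y) ^ 2)
          (fun k _ => sq_nonneg _) (Finset.mem_univ x)
      exact Real.abs_le_sqrt h7
    · rintro _ ⟨a, ha, rfl⟩ _ ⟨b, hb, rfl⟩ hd
      have hexp : ∀ a ∈ T, exp ((2 * Real.pi) • (B * a * B⁻¹)) = 1 := by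
        intro a ha
        have e1 : (2 * Real.pi) • (B * a * B⁻¹) = B * ((2 * Real.pi) • a) * B⁻¹ := by
          rw [Matrix.mul_smul, Matrix.smul_mul]
        rw [e1, Matrix.exp_conj _ _ hBu, ((hm a).1 ha).1.period, Matrix.mul_one, h1]
      refine hsep _ _ (hexp b hb) (hexp a ha) ?_ hd
      have e1 : ∀ x y : Matrix (Fin n) (Fin n) ℝ, B * x * B⁻¹ * (B * y * B⁻¹) =
          B * (x * y) * B⁻¹ := by
        intro x y
        calc B * x * B⁻¹ * (B * y * B⁻¹) = B * x * (B⁻¹ * B) * y * B⁻¹ := by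
              simp only [Matrix.mul_assoc]
          _ = B * (x * y) * B⁻¹ := by
              rw [h2, Matrix.mul_one]
              simp only [Matrix.mul_assoc]
      rw [e1, e1, hcomm b hb a ha]
  refine Set.Finite.of_finite_image hfin fun a _ b _ h => ?_
  have h3 : B⁻¹ * (B * a * B⁻¹) * B = B⁻¹ * (B * b * B⁻¹) * B := by
    have h4 : B * a * B⁻¹ = B * b * B⁻¹ := h
    rw [h4]
  have e1 : ∀ x : Matrix (Fin n) (Fin n) ℝ, B⁻¹ * (B * x * B⁻¹) * B = x := by
    intro x
    calc B⁻¹ * (B * x * B⁻¹) * B = B⁻¹ * B * x * (B⁻¹ * B) := by simp only [Matrix.mul_assoc]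
      _ = x := by rw [h2, Matrix.one_mul, Matrix.mul_one]
  rwa [e1, e1] at h3

end Pool.Agent.U980.HL
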