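import Mathlib
import Pool.Agent.U980.HL.Finite

/-!
# Integral classes which isolate a Hodge structure
-/

set_option autoImplicit false
set_option linter.unusedSectionVars false

namespace Pool.Agent.U980.HL

open Module Pool.Agent.R913.Adj Pool.Agent.U980.MF NormedSpace Matrix Filter Topology

/-- The integral class `c` is a Hodge class for `j`, and `j` is isolated among the Hodge structures
polarized by `Q` for which `c` is a Hodge class. -/
def Isolates {n d : ℕ} (Q : Matrix (Fin n) (Fin n) ℚ) (c : (Fin d → Fin n) → ℤ)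
    (j : Matrix (Fin n) (Fin n) ℝ) : Prop :=
  IsHodge j (fun b => (c b : ℚ)) ∧ Isolated Q j (fun j' => IsHodge j' (fun b => (c b : ℚ)))

variable {n d : ℕ} {j : Matrix (Fin n) (Fin n) ℝ} {Q : Matrix (Fin n) (Fin n) ℚ}

theorem isHodge_scale {q : ℚ} (hq : q ≠ 0) (c : (Fin d → Fin n) → ℚ)
    (j : Matrix (Fin n) (Fin n) ℝ) : IsHodge j (fun b => q * c b) ↔ IsHodge j c := by
  have hv : ∀ v : Fin d → Fin n → ℝ, value (fun b => q * c b) v = (q : ℝ) * value c v := by
    intro v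
    unfold value
    rw [Finset.mul_sum]
    refine Finset.sum_congr rfl fun b _ => ?_
    rw [Rat.cast_mul, mul_assoc]
  have hq' : (q : ℝ) ≠ 0 := Rat.cast_ne_zero.2 hq
  constructor
  · intro h θ v
    have h1 := h θ v
    rw [hv, hv] at h1
    exact mul_left_cancel₀ hq' h1
  · intro h θ v
    rw [hv, hv, h θ v]

theorem exists_int {ι : Type} [Fintype ι] (c : ι → ℚ) :
    ∃ D : ℕ, D ≠ 0 ∧ ∃ z : ι → ℤ, ∀ b, (z b : ℚ) = D * c b := by
  refine ⟨∏ b, (c b).den, Finset.prod_ne_zero_iff.2 fun b _ => (c b).den_nz, ?_⟩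
  have h : ∀ b, ∃ z : ℤ, (z : ℚ) = ((∏ b, (c b).den : ℕ) : ℚ) * c b := by
    intro b
    obtain ⟨k, hk⟩ := Finset.dvd_prod_of_mem (fun b => (c b).den) (Finset.mem_univ b)
    refine ⟨k * (c b).num, ?_⟩
    rw [hk]
    push_cast
    have h1 : ((c b).den : ℚ) * c b = (c b).num := Rat.den_mul_eq_num (c b)
    rw [← h1]
    ring
  choose z hz using h
  exact ⟨z, hz⟩

/-- A rational isolating class can be made integral. -/
theorem isolates_of_rat {c : (Fin d → Fin n) → ℚ} (hc : IsHodge j c)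
    (h : Isolated Q j (fun j' => IsHodge j' c)) : ∃ z : (Fin d → Fin n) → ℤ, Isolates Q z j := by
  obtain ⟨D, hD, z, hz⟩ := exists_int c
  have hz' : (fun b => (z b : ℚ)) = fun b => (D : ℚ) * c b := funext hz
  have hD' : (D : ℚ) ≠ 0 := Nat.cast_ne_zero.2 hD
  obtain ⟨U, hU, hU'⟩ := h
  refine ⟨z, ?_, U, hU, fun j' h1 h2 h3 => hU' j' h1 h2 ?_⟩
  · rw [hz', isHodge_scale hD']
    exact hc
  · have h4 : IsHodge j' (fun b => (z b : ℚ)) := h3
    rw [hz', isHodge_scale hD'] at h4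
    exact h4

theorem cm_tfae_int (hp : Polarized Q j) : List.TFAE [
    IsCM j,
    ∃ c : (Fin 2 → Fin n) → ℤ, Isolates Q c j,
    ∃ (d : ℕ) (c : (Fin d → Fin n) → ℤ), Isolates Q c j,
    Isolated Q j (Keeps j)] := by
  have h := cm_tfae hp
  tfae_have 1 → 2 := by
    intro h1
    obtain ⟨c, h2, h3⟩ := (h.out 0 1).1 h1
    exact isolates_of_rat h2 h3
  tfae_have 2 → 3 := by
    rintro ⟨c, h1⟩
    exact ⟨2, c, h1⟩
  tfae_have 3 → 4 := by
    rintro ⟨d, c, h1, U, hU, h2⟩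
    exact ⟨U, hU, fun j' hj' hp' hk => h2 j' hj' hp' (hk d _ h1)⟩
  tfae_have 4 → 1 := by
    intro h1
    exact (h.out 0 3).2 h1
  tfae_finish

/-- Finitely many points of bounded complexity. -/
theorem finite_int (Q : Matrix (Fin n) (Fin n) ℚ) (d : ℕ) (B : ℤ) (W : ℝ) :
    {j : Matrix (Fin n) (Fin n) ℝ | Polarized Q j ∧ -(j * j).trace ≤ W ∧
      ∃ c : (Fin d → Fin n) → ℤ, (∀ b, |c b| ≤ B) ∧ Isolates Q c j}.Finite := by
  have h1 : {c : (Fin d → Fin n) → ℤ | ∀ b, |c b| ≤ B}.Finite := by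
    have h2 : (Set.univ.pi fun _ : Fin d → Fin n => Set.Icc (-B) B).Finite :=
      Set.Finite.pi fun _ => Set.finite_Icc _ _
    refine h2.subset fun c hc b _ => abs_le.1 (hc b)
  refine (h1.biUnion fun c _ => finite_isol (Q := Q) (fun b => (c b : ℚ)) W).subset ?_
  rintro j ⟨h2, h3, c, h4, h5, h6⟩
  exact Set.mem_biUnion (show c ∈ {c : (Fin d → Fin n) → ℤ | ∀ b, |c b| ≤ B} from h4)
    ⟨h2, h3, h5, h6⟩

end Pool.Agent.U980.HL
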